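import Pool.Agent.P.MP_961199_an.Hom.Defs

/-!
Exponential bounds, Gaussian measures and rotations.
-/

set_option autoImplicit false
set_option linter.unusedSectionVars false

namespace Pool.Agent.P.MP_961199_an.Hom

open MeasureTheory ProbabilityTheory Real Filter Topology

/-! ### Exponentially bounded functions -/

/-- `φ` is exponentially bounded with respect to the gauge `ρ`. -/
def EB {X F : Type*} [Norm F] (ρ : X → ℝ) (φ : X → F) : Prop :=
  ∃ C c : ℝ, 0 ≤ C ∧ 0 ≤ c ∧ ∀ x, ‖φ x‖ ≤ C * exp (c * |ρ x|)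

section EB

variable {X : Type*} {ρ : X → ℝ}

lemma EB.of_le {F G : Type*} [Norm F] [Norm G] {φ : X → F} {ψ : X → G} (h : EB ρ φ)
    (hl : ∀ x, ‖ψ x‖ ≤ ‖φ x‖) : EB ρ ψ := by
  obtain ⟨C, c, hC, hc, h⟩ := h
  exact ⟨C, c, hC, hc, fun x => (hl x).trans (h x)⟩

lemma EB.const {F : Type*} [SeminormedAddGroup F] (a : F) : EB ρ fun _ => a :=
  ⟨‖a‖, 0, norm_nonneg _, le_rfl, fun x => by simp⟩

lemma EB.add {F : Type*} [SeminormedAddGroup F] {φ ψ : X → F} (h : EB ρ φ) (h' : EB ρ ψ) :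
    EB ρ fun x => φ x + ψ x := by
  obtain ⟨C, c, hC, hc, h⟩ := h
  obtain ⟨C', c', hC', hc', h'⟩ := h'
  refine ⟨C + C', c + c', by positivity, by positivity, fun x => (norm_add_le _ _).trans ?_⟩
  have h0 := abs_nonneg (ρ x)
  have e1 : exp (c * |ρ x|) ≤ exp ((c + c') * |ρ x|) := exp_le_exp.2 (by nlinarith)
  have e2 : exp (c' * |ρ x|) ≤ exp ((c + c') * |ρ x|) := exp_le_exp.2 (by nlinarith)
  nlinarith [h x, h' x]

lemma EB.mul {F : Type*} [NonUnitalSeminormedRing F] {φ ψ : X → F} (h : EB ρ φ) (h' : EB ρ ψ) :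
    EB ρ fun x => φ x * ψ x := by
  obtain ⟨C, c, hC, hc, h⟩ := h
  obtain ⟨C', c', hC', hc', h'⟩ := h'
  refine ⟨C * C', c + c', by positivity, by positivity, fun x => (norm_mul_le _ _).trans ?_⟩
  rw [add_mul, exp_add, mul_mul_mul_comm]
  exact mul_le_mul (h x) (h' x) (norm_nonneg _) (by positivity)

lemma EB.sum {F J : Type*} [SeminormedAddCommGroup F] (s : Finset J) {φ : J → X → F}
    (h : ∀ j, EB ρ (φ j)) : EB ρ fun x => ∑ j ∈ s, φ j x := by
  classical
  induction s using Finset.induction_on with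
  | empty => simpa using EB.const (0 : F)
  | insert a s ha ih => simpa only [Finset.sum_insert ha] using (h a).add ih

lemma EB.norm {F : Type*} [SeminormedAddGroup F] {φ : X → F} (h : EB ρ φ) :
    EB ρ fun x => ‖φ x‖ := h.of_le fun x => by simp

lemma EB.rpow {F : Type*} [SeminormedAddGroup F] {φ : X → F} (h : EB ρ φ) {r : ℝ} (hr : 0 ≤ r) :
    EB ρ fun x => ‖φ x‖ ^ r := by
  obtain ⟨C, c, hC, hc, h⟩ := h
  refine ⟨C ^ r, c * r, by positivity, by positivity, fun x => ?_⟩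
  rw [Real.norm_of_nonneg (by positivity)]
  refine (rpow_le_rpow (norm_nonneg _) (h x) hr).trans_eq ?_
  rw [mul_rpow hC (exp_pos _).le, ← exp_mul]
  congr 2; ring

lemma EB.of_lin {F : Type*} [Norm F] {φ : X → F} {K L : ℝ} (hK : 0 ≤ K) (hL : 0 ≤ L)
    (h : ∀ x, ‖φ x‖ ≤ K * |ρ x| + L) : EB ρ φ := by
  refine ⟨1 + L, K, by positivity, hK, fun x => (h x).trans ?_⟩
  have h0 : 0 ≤ K * |ρ x| := by positivity
  have := add_one_le_exp (K * |ρ x|)
  nlinarith

lemma EB.cexp {φ : X → ℂ} {K L : ℝ} (hK : 0 ≤ K) (h : ∀ x, ‖φ x‖ ≤ K * |ρ x| + L) :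
    EB ρ fun x => Complex.exp (φ x) := by
  refine ⟨exp L, K, by positivity, hK, fun x => ?_⟩
  rw [← exp_add, Complex.norm_exp]
  exact exp_le_exp.2 ((Complex.re_le_norm _).trans (by linarith [h x]))

lemma EB.comp {Y F : Type*} [Norm F] {φ : X → F} (h : EB ρ φ) {ρ' : Y → ℝ} (g : Y → X) {K L : ℝ}
    (hK : 0 ≤ K) (hg : ∀ y, |ρ (g y)| ≤ K * |ρ' y| + L) : EB ρ' fun y => φ (g y) := by
  obtain ⟨C, c, hC, hc, h⟩ := h
  refine ⟨C * exp (c * L), c * K, by positivity, by positivity, fun y => (h _).trans ?_⟩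
  rw [mul_assoc, ← exp_add]
  exact mul_le_mul_of_nonneg_left (exp_le_exp.2 (by nlinarith [hg y])) hC

lemma EB.eval {κ : Type*} {V : X → κ → ℂ} (h : ∀ k, EB ρ fun x => V x k)
    (F : MvPolynomial κ ℂ) : EB ρ fun x => MvPolynomial.eval (V x) F := by
  induction F using MvPolynomial.induction_on with
  | C a => simpa using EB.const a
  | add p q hp hq => simpa using hp.add hq
  | mul_X p k hp => simpa using hp.mul (h k)

end EB

section Gaussian

variable {E : Type*} [NormedAddCommGroup E] [NormedSpace ℝ E] [MeasurableSpace E] [BorelSpace E]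
  [SecondCountableTopology E] [CompleteSpace E]

lemma integrable_exp_norm (μ : Measure E) [IsGaussian μ] (c : ℝ) :
    Integrable (fun x => exp (c * |‖x‖|)) μ := by
  obtain ⟨C, hC, h⟩ := IsGaussian.exists_integrable_exp_sq μ
  refine (h.const_mul (exp (c ^ 2 / (4 * C)))).mono' (by fun_prop) (ae_of_all _ fun x => ?_)
  rw [Real.norm_of_nonneg (exp_pos _).le, ← exp_add, abs_norm]
  refine exp_le_exp.2 ?_
  rw [← sub_nonneg]
  have : c ^ 2 / (4 * C) + C * ‖x‖ ^ 2 - c * ‖x‖ = (c - 2 * C * ‖x‖) ^ 2 / (4 * C) := by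
    field_simp; ring
  rw [this]; positivity

lemma EB.integrable {F : Type*} [NormedAddCommGroup F] {φ : E → F} (h : EB (fun x => ‖x‖) φ)
    (μ : Measure E) [IsGaussian μ] (hm : AEStronglyMeasurable φ μ) : Integrable φ μ := by
  obtain ⟨C, c, -, -, h⟩ := h
  exact ((integrable_exp_norm μ c).const_mul C).mono' hm (ae_of_all _ h)

end Gaussian

variable {ι : Type} [Fintype ι]

lemma gauss_eq : gauss ι = (stdGaussian (EuclideanSpace ℝ ι)).map
    (PiLp.continuousLinearEquiv 2 ℝ fun _ : ι => ℝ) := by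
  rw [← map_pi_eq_stdGaussian, Measure.map_map (by fun_prop) (by fun_prop)]
  exact Measure.map_id.symm

instance : IsGaussian (gauss ι) := by rw [gauss_eq]; infer_instance

lemma gauss_mean : (gauss ι)[id] = 0 := by
  funext j
  have h := (ContinuousLinearMap.proj (R := ℝ) (φ := fun _ : ι => ℝ) j).integral_comp_comm
    (IsGaussian.integrable_id (μ := gauss ι))
  simp only [ContinuousLinearMap.proj_apply, id] at h
  change (∫ x, x ∂gauss ι) j = 0
  rw [← h, gauss, integral_eval]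
  simp

/-- The rotation of a pair. -/
noncomputable abbrev rot {E : Type*} [SeminormedAddCommGroup E] [NormedSpace ℝ E] (θ : ℝ) :
    E × E → E × E := ContinuousLinearMap.rotation θ

lemma rot_apply {E : Type*} [SeminormedAddCommGroup E] [NormedSpace ℝ E] (θ : ℝ) (x : E × E) :
    rot θ x = (cos θ • x.1 + sin θ • x.2, -sin θ • x.1 + cos θ • x.2) := rfl

/-- The Gaussian measure on pairs. -/
noncomputable abbrev g2 (ι : Type) [Fintype ι] : Measure ((ι → ℝ) × (ι → ℝ)) :=
  (gauss ι).prod (gauss ι)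

lemma mp_rot (θ : ℝ) : MeasurePreserving (rot θ) (g2 ι) (g2 ι) :=
  ⟨(ContinuousLinearMap.rotation θ).continuous.measurable,
    IsGaussian.map_rotation_eq_self gauss_mean θ⟩

lemma mp_rot1 (θ : ℝ) : MeasurePreserving (rot θ) ((gaussianReal 0 1).prod (gaussianReal 0 1))
    ((gaussianReal 0 1).prod (gaussianReal 0 1)) :=
  ⟨(ContinuousLinearMap.rotation θ).continuous.measurable,
    IsGaussian.map_rotation_eq_self (by simp) θ⟩

lemma continuous_rot {E : Type*} [SeminormedAddCommGroup E] [NormedSpace ℝ E] :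
    Continuous fun q : (E × E) × ℝ => rot q.2 q.1 := by
  simp only [rot_apply]; fun_prop

/-- The first component of a rotated pair is Gaussian. -/
lemma mp_comb {a b : ℝ} (h : a ^ 2 + b ^ 2 = 1) :
    MeasurePreserving (fun x : (ι → ℝ) × (ι → ℝ) => a • x.1 + b • x.2) (g2 ι) (gauss ι) := by
  have hz : ‖(⟨a, b⟩ : ℂ)‖ = 1 := by
    rw [Complex.norm_eq_sqrt_sq_add_sq]; simp [h]
  have hz0 : (⟨a, b⟩ : ℂ) ≠ 0 := by
    intro h0; rw [h0] at hz; simp at hz
  have h1 : cos (Complex.arg ⟨a, b⟩) = a := by rw [Complex.cos_arg hz0, hz]; simp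
  have h2 : sin (Complex.arg ⟨a, b⟩) = b := by rw [Complex.sin_arg, hz]; simp
  have := (measurePreserving_fst (μ := gauss ι) (ν := gauss ι)).comp
    (mp_rot (ι := ι) (Complex.arg ⟨a, b⟩))
  convert this using 1
  funext x
  simp [rot_apply, h1, h2]

/-- A real vector as a complex vector. -/
def cv (x : ι → ℝ) : ι → ℂ := fun j => x j

/-- The complex vector `u + i v`. -/
def cx (x : (ι → ℝ) × (ι → ℝ)) : ι → ℂ := fun j => x.1 j + Complex.I * x.2 j

/-- The complex vector `u - i v`. -/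
def cb (x : (ι → ℝ) × (ι → ℝ)) : ι → ℂ := fun j => x.1 j - Complex.I * x.2 j

lemma cx_rot (θ : ℝ) (x : (ι → ℝ) × (ι → ℝ)) :
    cx (rot θ x) = (Complex.exp (θ * Complex.I))⁻¹ • cx x := by
  funext j
  rw [← Complex.exp_neg, ← neg_mul, ← Complex.ofReal_neg, Complex.exp_mul_I]
  simp only [cx, rot_apply, Pi.add_apply, Pi.smul_apply, smul_eq_mul]
  push_cast
  rw [Complex.cos_neg, Complex.sin_neg]
  linear_combination (Complex.sin θ * x.2 j) * Complex.I_mul_I

lemma cb_rot (θ : ℝ) (x : (ι → ℝ) × (ι → ℝ)) :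
    cb (rot θ x) = Complex.exp (θ * Complex.I) • cb x := by
  funext j
  rw [Complex.exp_mul_I]
  simp only [cb, rot_apply, Pi.add_apply, Pi.smul_apply, smul_eq_mul]
  push_cast
  linear_combination (Complex.sin θ * x.2 j) * Complex.I_mul_I

@[fun_prop] lemma continuous_cv : Continuous (cv (ι := ι)) := by unfold cv; fun_prop
@[fun_prop] lemma continuous_cx : Continuous (cx (ι := ι)) := by unfold cx; fun_prop

lemma eb_cv (j : ι) : EB (fun x : ι → ℝ => ‖x‖) fun x => cv x j :=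
  EB.of_lin zero_le_one le_rfl fun x => by simpa [cv] using norm_le_pi_norm x j

lemma eb_fst (j : ι) : EB (fun x : (ι → ℝ) × (ι → ℝ) => ‖x‖) fun x => (x.1 j : ℂ) :=
  EB.of_lin zero_le_one le_rfl fun x => by
    simpa using (norm_le_pi_norm x.1 j).trans (norm_fst_le x)

lemma eb_snd (j : ι) : EB (fun x : (ι → ℝ) × (ι → ℝ) => ‖x‖) fun x => (x.2 j : ℂ) :=
  EB.of_lin zero_le_one le_rfl fun x => by
    simpa using (norm_le_pi_norm x.2 j).trans (norm_snd_le x)

lemma eb_cx (j : ι) : EB (fun x : (ι → ℝ) × (ι → ℝ) => ‖x‖) fun x => cx x j :=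
  (eb_fst j).add ((EB.const _).mul (eb_snd j))

@[fun_prop] lemma continuous_mv {X κ : Type*} [TopologicalSpace X] {V : X → κ → ℂ}
    (h : Continuous V) (F : MvPolynomial κ ℂ) : Continuous fun x => MvPolynomial.eval (V x) F :=
  (MvPolynomial.continuous_eval F).comp h

lemma integral_cexp (m : ι → ℂ) :
    ∫ y, Complex.exp (∑ j, m j * y j) ∂gauss ι = Complex.exp ((∑ j, m j ^ 2) / 2) := by
  simp_rw [Complex.exp_sum]
  rw [gauss, integral_fintype_prod_eq_prod (f := fun j (t : ℝ) => Complex.exp (m j * t)),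
    Finset.sum_div, Complex.exp_sum]
  refine Finset.prod_congr rfl fun j _ => ?_
  have := complexMGF_id_gaussianReal (μ := 0) (v := 1) (m j)
  simpa [complexMGF] using this

end Pool.Agent.P.MP_961199_an.Hom
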