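import Pool.Agent.P.MP_961199_an.TwoPoint

/-!
Beckner's two-point inequality and a bilinear inequality on the discrete cube.
-/

set_option autoImplicit false

namespace Pool.Agent.P.MP_961199_an.Hom

open Real

/-- The power mean of two numbers. -/
noncomputable def m2 (r x y : ℝ) : ℝ := ((x ^ r + y ^ r) / 2) ^ (1 / r)

lemma m2_nonneg {r x y : ℝ} (hx : 0 ≤ x) (hy : 0 ≤ y) : 0 ≤ m2 r x y := by
  unfold m2; positivity

lemma m2_add {r a b c d : ℝ} (hr : 1 ≤ r) (ha : 0 ≤ a) (hb : 0 ≤ b) (hc : 0 ≤ c) (hd : 0 ≤ d) :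
    m2 r (a + b) (c + d) ≤ m2 r a c + m2 r b d := by
  have h := Real.Lp_add_le_of_nonneg (s := Finset.univ) (f := ![a, c]) (g := ![b, d]) hr
    (by simp [Fin.forall_fin_two, ha, hc]) (by simp [Fin.forall_fin_two, hb, hd])
  simp only [Fin.sum_univ_two, Matrix.cons_val_zero, Matrix.cons_val_one] at h
  unfold m2
  rw [div_rpow (by positivity) (by norm_num), div_rpow (by positivity) (by norm_num),
    div_rpow (by positivity) (by norm_num), ← add_div]
  exact div_le_div_of_nonneg_right h (by positivity)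

lemma m2_mul {r k x y : ℝ} (hr : 0 < r) (hk : 0 ≤ k) (hx : 0 ≤ x) (hy : 0 ≤ y) :
    m2 r (k * x) (k * y) = k * m2 r x y := by
  unfold m2
  rw [mul_rpow hk hx, mul_rpow hk hy, ← mul_add, mul_div_assoc,
    mul_rpow (by positivity) (by positivity), one_div, rpow_rpow_inv hk hr.ne']

lemma m2_self {r x : ℝ} (hr : 0 < r) (hx : 0 ≤ x) : m2 r x x = x := by
  unfold m2
  rw [add_self_div_two, one_div, rpow_rpow_inv hx hr.ne']

lemma m2_sum {Ω : Type*} (S : Finset Ω) {r : ℝ} (hr : 1 ≤ r) {x y : Ω → ℝ} (hx : ∀ i, 0 ≤ x i)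
    (hy : ∀ i, 0 ≤ y i) : m2 r (∑ i ∈ S, x i) (∑ i ∈ S, y i) ≤ ∑ i ∈ S, m2 r (x i) (y i) := by
  classical
  induction S using Finset.induction_on with
  | empty => simp [m2_self (by linarith : 0 < r)]
  | insert a S ha ih =>
    simp only [Finset.sum_insert ha]
    exact (m2_add hr (hx a) (Finset.sum_nonneg fun i _ => hx i) (hy a)
      (Finset.sum_nonneg fun i _ => hy i)).trans (by linarith)

lemma m2_shift {r x y c : ℝ} (hr : 0 < r) (hr1 : r ≤ 1) (hx : 0 ≤ x) (hy : 0 ≤ y) (hc : 0 ≤ c) :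
    m2 r x y + c ≤ m2 r (x + c) (y + c) := by
  have hρ : 1 ≤ 1 / r := by rw [le_div_iff₀ hr]; linarith
  have h := m2_add (a := x ^ r) (b := y ^ r) (c := c ^ r) (d := c ^ r) hρ (by positivity)
    (by positivity) (by positivity) (by positivity)
  have e : ∀ t : ℝ, 0 ≤ t → m2 (1 / r) (t ^ r) (c ^ r) = (t + c) ^ r / 2 ^ r := fun t ht => by
    rw [m2, one_div_one_div, one_div, rpow_rpow_inv ht hr.ne', rpow_rpow_inv hc hr.ne',
      div_rpow (by positivity) (by norm_num)]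
  have h0 := m2_nonneg (r := r) hx hy
  have e1 : x ^ r + y ^ r = 2 * m2 r x y ^ r := by
    rw [m2, one_div, rpow_inv_rpow (by positivity) hr.ne']; ring
  rw [e1, ← two_mul, m2_mul (by positivity) (by norm_num) (by positivity) (by positivity),
    e _ h0, e _ hx, e _ hy, ← add_div, ← mul_div_assoc,
    div_le_div_iff_of_pos_right (by positivity)] at h
  rw [m2.eq_1 r (x + c), one_div, le_rpow_inv_iff_of_pos (by positivity) (by positivity) hr]
  linarith

lemma m2_sq {r x y : ℝ} (hx : 0 ≤ x) (hy : 0 ≤ y) :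
    m2 (r / 2) (x ^ 2) (y ^ 2) = ((x ^ r + y ^ r) / 2) ^ (2 / r) := by
  have e : ∀ t : ℝ, 0 ≤ t → (t ^ 2) ^ (r / 2) = t ^ r := fun t ht => by
    rw [← rpow_two, ← rpow_mul ht]; congr 1; ring
  rw [m2, e x hx, e y hy, one_div_div]

lemma low_real {p : ℝ} (h1 : 1 < p) (h2 : p ≤ 2) (a t : ℝ) :
    a ^ 2 + (p - 1) * t ^ 2 ≤ m2 (p / 2) ((a + t) ^ 2) ((a - t) ^ 2) := by
  rw [← sq_abs (a + t), ← sq_abs (a - t), m2_sq (abs_nonneg _) (abs_nonneg _)]
  have k : ((|a + t| + |a - t|) / 2) ^ 2 + (p - 1) * ((|a + t| - |a - t|) / 2) ^ 2 ≤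
      ((|a + t| ^ p + |a - t| ^ p) / 2) ^ (2 / p) := by
    rcases le_total |a - t| |a + t| with h | h
    · exact tp2 h1 h2 (abs_nonneg _) h
    · convert tp2 h1 h2 (abs_nonneg _) h using 1 <;> ring_nf
  have k1 : (|a + t| - |a - t|) ^ 2 ≤ (2 * t) ^ 2 := by
    rw [sq_le_sq]
    exact (abs_abs_sub_abs_le_abs_sub _ _).trans_eq (by congr 1; ring)
  nlinarith [sq_abs (a + t), sq_abs (a - t)]

lemma tp3h {q X Y : ℝ} (hq : 2 ≤ q) (hY : 0 ≤ Y) (h : Y ≤ X) :
    ((X ^ q + Y ^ q) / 2) ^ (2 / q) ≤ ((X + Y) / 2) ^ 2 + (q - 1) * ((X - Y) / 2) ^ 2 := by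
  have hq0 : 0 < q := by linarith
  rcases (add_nonneg (hY.trans h) hY).eq_or_lt with h0 | h0
  · have hX0 : X = 0 := by linarith
    have hY0 : Y = 0 := by linarith
    simp [hX0, hY0, hq0.ne']
  have ht0 : 0 ≤ (X - Y) / (X + Y) := div_nonneg (by linarith) h0.le
  have ht1 : (X - Y) / (X + Y) ≤ 1 := by rw [div_le_one h0]; linarith
  have k := tp3 hq ht0 ht1
  rw [← m2_sq (by linarith) (by linarith)] at k
  have k2 := mul_le_mul_of_nonneg_left k (sq_nonneg ((X + Y) / 2))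
  rw [← m2_mul (by positivity) (sq_nonneg _) (sq_nonneg _) (sq_nonneg _), ← mul_pow,
    ← mul_pow] at k2
  rw [← m2_sq (hY.trans h) hY]
  have e1 : (X + Y) / 2 * (1 + (X - Y) / (X + Y)) = X := by field_simp; ring
  have e2 : (X + Y) / 2 * (1 - (X - Y) / (X + Y)) = Y := by field_simp; ring
  rw [e1, e2] at k2
  refine k2.trans_eq ?_
  field_simp

lemma up_real {q : ℝ} (hq : 2 ≤ q) (a t : ℝ) :
    m2 (q / 2) ((a + t) ^ 2) ((a - t) ^ 2) ≤ a ^ 2 + (q - 1) * t ^ 2 := by
  rw [← sq_abs (a + t), ← sq_abs (a - t), m2_sq (abs_nonneg _) (abs_nonneg _)]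
  have k : ((|a + t| ^ q + |a - t| ^ q) / 2) ^ (2 / q) ≤
      ((|a + t| + |a - t|) / 2) ^ 2 + (q - 1) * ((|a + t| - |a - t|) / 2) ^ 2 := by
    rcases le_total |a - t| |a + t| with h | h
    · exact tp3h hq (abs_nonneg _) h
    · convert tp3h hq (abs_nonneg _) h using 1 <;> ring_nf
  have k1 : (|a + t| - |a - t|) ^ 2 ≤ (2 * t) ^ 2 := by
    rw [sq_le_sq]
    exact (abs_abs_sub_abs_le_abs_sub _ _).trans_eq (by congr 1; ring)
  nlinarith [sq_abs (a + t), sq_abs (a - t)]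

/-- Beckner's two-point inequality. -/
lemma beckner2 {p q s : ℝ} (hpq : p.HolderConjugate q) (h2 : p ≤ 2) (hs : s ^ 2 = p - 1)
    (A B : ℂ) : m2 (q / p) (‖A + Complex.I * s * B‖ ^ p) (‖A - Complex.I * s * B‖ ^ p) ≤
      (‖A + B‖ ^ p + ‖A - B‖ ^ p) / 2 := by
  have h1 := hpq.lt
  have hp := hpq.pos
  have hq0 := hpq.symm.pos
  have hq1 : (q - 1) * (p - 1) = 1 := by nlinarith [hpq.mul_eq_add]
  have hq : 2 ≤ q := by nlinarith
  obtain ⟨ω, hω, hA⟩ := Complex.exists_norm_eq_mul_self A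
  set ξ := (ω * B).re
  set η := (ω * B).im
  have e : ∀ c : ℂ, ‖A + c * B‖ ^ 2 =
      (‖A‖ + (c.re * ξ - c.im * η)) ^ 2 + (c.re * η + c.im * ξ) ^ 2 := fun c => by
    rw [← one_mul ‖A + c * B‖, ← hω, ← norm_mul, mul_add, ← hA, mul_left_comm,
      Complex.sq_norm, Complex.normSq_apply]
    simp only [Complex.add_re, Complex.add_im, Complex.ofReal_re, Complex.ofReal_im,
      Complex.mul_re c, Complex.mul_im c]
    ring
  have k1 : ((‖A + Complex.I * s * B‖ ^ q + ‖A - Complex.I * s * B‖ ^ q) / 2) ^ (2 / q) ≤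
      ‖A‖ ^ 2 + η ^ 2 + (p - 1) * ξ ^ 2 := by
    rw [← m2_sq (norm_nonneg _) (norm_nonneg _), sub_eq_add_neg A, ← neg_mul, e, e]
    refine (m2_add (by linarith) (sq_nonneg _) (sq_nonneg _) (sq_nonneg _) (sq_nonneg _)).trans ?_
    have k := up_real hq ‖A‖ (-(s * η))
    have k' := m2_self (r := q / 2) (by positivity) (sq_nonneg (s * ξ))
    have k'' : (q - 1) * (-(s * η)) ^ 2 = η ^ 2 := by
      rw [neg_sq, mul_pow, hs, ← mul_assoc, hq1, one_mul]
    simp only [Complex.mul_re, Complex.mul_im, Complex.I_re, Complex.I_im, Complex.ofReal_re,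
      Complex.ofReal_im, Complex.neg_re, Complex.neg_im] at *
    ring_nf at *
    nlinarith
  have k2 : ‖A‖ ^ 2 + η ^ 2 + (p - 1) * ξ ^ 2 ≤ ((‖A + B‖ ^ p + ‖A - B‖ ^ p) / 2) ^ (2 / p) := by
    have e1 := e 1
    have e2 := e (-1)
    simp only [one_mul, neg_mul, ← sub_eq_add_neg, Complex.one_re, Complex.one_im, Complex.neg_re,
      Complex.neg_im, zero_mul, sub_zero, add_zero, neg_zero, neg_sq] at e1 e2
    rw [← m2_sq (norm_nonneg _) (norm_nonneg _), e1, e2]
    refine le_trans ?_ (m2_shift (by positivity) (by linarith) (sq_nonneg _) (sq_nonneg _)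
      (sq_nonneg _))
    linarith [low_real h1 h2 ‖A‖ ξ]
  have k3 := rpow_le_rpow (by positivity) (k1.trans k2) (by positivity : 0 ≤ p / 2)
  have e3 : ∀ t : ℝ, 0 ≤ t → (t ^ p) ^ (q / p) = t ^ q := fun t ht => by
    rw [← rpow_mul ht]; congr 1; field_simp
  rw [← rpow_mul (by positivity), ← rpow_mul (by positivity), show 2 / p * (p / 2) = 1 by
    field_simp, rpow_one] at k3
  rw [m2, e3 _ (norm_nonneg _), e3 _ (norm_nonneg _)]
  convert k3 using 2
  field_simp

/-- The average over the cube. -/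
noncomputable def av {I : Type} [Fintype I] [DecidableEq I] (f : (I → Bool) → ℝ) : ℝ :=
  (∑ ε, f ε) / 2 ^ Fintype.card I

lemma av_nonneg {I : Type} [Fintype I] [DecidableEq I] {f : (I → Bool) → ℝ} (h : ∀ ε, 0 ≤ f ε) :
    0 ≤ av f := div_nonneg (Finset.sum_nonneg fun ε _ => h ε) (by positivity)

lemma av_succ {m : ℕ} (f : (Fin (m + 1) → Bool) → ℝ) :
    av f = (av (fun ε => f (Fin.cons true ε)) + av fun ε => f (Fin.cons false ε)) / 2 := by
  rw [av, av, av, ← (Fin.consEquiv fun _ => Bool).sum_comp, Fintype.sum_prod_type]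
  simp only [Fintype.card_fin, Fintype.sum_bool, Fin.consEquiv, Equiv.coe_fn_mk]
  ring

lemma step {I : Type} [Fintype I] [DecidableEq I] {p q s : ℝ} (hpq : p.HolderConjugate q)
    (h2 : p ≤ 2) (hs : s ^ 2 = p - 1) (A B : (I → Bool) → ℂ) {y z : ℝ} (hy : 0 ≤ y) (hz : 0 ≤ z) :
    ((av fun ε => ‖A ε + Complex.I * s * B ε‖ ^ p) ^ (1 / p) * y ^ (1 / p) +
      (av fun ε => ‖A ε - Complex.I * s * B ε‖ ^ p) ^ (1 / p) * z ^ (1 / p)) / 2 ≤
    (((av fun ε => ‖A ε + B ε‖ ^ p) + av fun ε => ‖A ε - B ε‖ ^ p) / 2) ^ (1 / p) *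
      ((y + z) / 2) ^ (1 / p) := by
  have h1 := hpq.lt
  have hp := hpq.pos
  have hq0 := hpq.symm.pos
  have hq : 1 ≤ q / p := by rw [le_div_iff₀ hp]; nlinarith [hpq.mul_eq_add]
  set X := av fun ε => ‖A ε + Complex.I * s * B ε‖ ^ p with hX
  set Y := av fun ε => ‖A ε - Complex.I * s * B ε‖ ^ p with hY
  have hX0 : 0 ≤ X := av_nonneg fun ε => by positivity
  have hY0 : 0 ≤ Y := av_nonneg fun ε => by positivity
  have k1 : m2 (q / p) X Y ≤
      ((av fun ε => ‖A ε + B ε‖ ^ p) + av fun ε => ‖A ε - B ε‖ ^ p) / 2 := by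
    rw [hX, hY]
    simp only [av, div_eq_inv_mul _ ((2 : ℝ) ^ _)]
    rw [m2_mul (by positivity) (by positivity) (Finset.sum_nonneg fun _ _ => by positivity)
      (Finset.sum_nonneg fun _ _ => by positivity), ← mul_add, mul_div_assoc,
      ← Finset.sum_add_distrib, Finset.sum_div]
    refine mul_le_mul_of_nonneg_left ?_ (by positivity)
    exact (m2_sum _ hq (fun _ => by positivity) fun _ => by positivity).trans
      (Finset.sum_le_sum fun ε _ => beckner2 hpq h2 hs _ _)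
  have k2 := Real.inner_le_Lp_mul_Lq_of_nonneg (s := Finset.univ)
    (f := ![X ^ (1 / p), Y ^ (1 / p)]) (g := ![y ^ (1 / p), z ^ (1 / p)]) hpq.symm
    (by simp [Fin.forall_fin_two]; constructor <;> positivity)
    (by simp [Fin.forall_fin_two]; constructor <;> positivity)
  simp only [Fin.sum_univ_two, Matrix.cons_val_zero, Matrix.cons_val_one] at k2
  have e1 : ∀ t : ℝ, 0 ≤ t → (t ^ (1 / p)) ^ q = t ^ (q / p) := fun t ht => by
    rw [← rpow_mul ht]; congr 1; ring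
  have e2 : ∀ t : ℝ, 0 ≤ t → (t ^ (1 / p)) ^ p = t := fun t ht => by
    rw [one_div, rpow_inv_rpow ht hp.ne']
  rw [e1 _ hX0, e1 _ hY0, e2 _ hy, e2 _ hz] at k2
  have k3 := rpow_le_rpow (m2_nonneg hX0 hY0) k1 (by positivity : 0 ≤ 1 / p)
  rw [m2, ← rpow_mul (by positivity), show 1 / (q / p) * (1 / p) = 1 / q by field_simp] at k3
  refine le_trans ?_ (mul_le_mul_of_nonneg_right k3 (by positivity))
  rw [div_rpow (by positivity) (by norm_num), div_rpow (by positivity) (by norm_num),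
    div_mul_div_comm, ← rpow_add (by norm_num), one_div q, one_div p, hpq.symm.inv_add_inv_eq_one,
    rpow_one, ← one_div p, ← one_div q]
  linarith

/-- The sign attached to a bit. -/
def sg (b : Bool) : ℝ := if b then 1 else -1

/-- A combination of Riesz products on the cube. -/
noncomputable def cp {J I : Type} [Fintype J] [Fintype I] (c : J → ℂ) (a : J → I → ℂ)
    (ε : I → Bool) : ℂ := ∑ j, c j * ∏ i, (1 + a j i * sg (ε i))

lemma cp_cons {J : Type} [Fintype J] {m : ℕ} (c : J → ℂ) (a : J → Fin (m + 1) → ℂ) (b : Bool)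
    (ε : Fin m → Bool) : cp c a (Fin.cons b ε) =
      cp (fun j => c j * (1 + a j 0 * sg b)) (fun j i => a j i.succ) ε := by
  simp [cp, Fin.prod_univ_succ, mul_assoc]

lemma cp_lin {J I : Type} [Fintype J] [Fintype I] (c e : J → ℂ) (a : J → I → ℂ) (z σ : ℂ)
    (ε : I → Bool) : cp (fun j => c j * (1 + z * e j * σ)) a ε =
      cp c a ε + σ * (z * cp (fun j => c j * e j) a ε) := by
  simp only [cp, Finset.mul_sum, ← Finset.sum_add_distrib]
  exact Finset.sum_congr rfl fun j _ => by ring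

lemma cube_fin {J L : Type} [Fintype J] [Fintype L] {p q s : ℝ} (hpq : p.HolderConjugate q)
    (h2 : p ≤ 2) (hs : s ^ 2 = p - 1) (m : ℕ) : ∀ (z w : Fin m → ℂ)
    (_ : ∀ i, (z i = Complex.I * s ∧ w i = 1) ∨ (z i = 1 ∧ w i = Complex.I * s))
    (c : J → ℂ) (a : J → Fin m → ℂ) (e : L → ℂ) (b : L → Fin m → ℂ),
    (av fun ε => ‖cp c (fun j i => z i * a j i) ε * cp e (fun j i => w i * b j i) ε‖) ≤
      (av fun ε => ‖cp c a ε‖ ^ p) ^ (1 / p) * (av fun ε => ‖cp e b ε‖ ^ p) ^ (1 / p) := by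
  have hp := hpq.pos
  induction m with
  | zero =>
    intro z w _ c a e b
    simp [av, cp, rpow_rpow_inv (norm_nonneg _) hp.ne']
  | succ m ih =>
    intro z w h c a e b
    simp only [av_succ, cp_cons]
    refine (div_le_div_of_nonneg_right (add_le_add
      (ih (fun i => z i.succ) (fun i => w i.succ) (fun i => h _) _ _ _ _)
      (ih (fun i => z i.succ) (fun i => w i.succ) (fun i => h _) _ _ _ _)) zero_le_two).trans ?_
    set a' : J → Fin m → ℂ := fun j i => a j i.succ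
    set b' : L → Fin m → ℂ := fun j i => b j i.succ
    rcases h 0 with ⟨hz, hw⟩ | ⟨hz, hw⟩
    · have k := step hpq h2 hs (cp c a') (cp (fun j => c j * a j 0) a')
        (y := av fun ε => ‖cp (fun j => e j * (1 + b j 0 * sg true)) b' ε‖ ^ p)
        (z := av fun ε => ‖cp (fun j => e j * (1 + b j 0 * sg false)) b' ε‖ ^ p)
        (av_nonneg fun _ => by positivity) (av_nonneg fun _ => by positivity)
      have e1 := fun σ ε => cp_lin c (fun j => a j 0) a' 1 σ ε
      simp only [one_mul] at e1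
      simp only [hz, hw, one_mul, cp_lin c, e1]
      simpa [sg, sub_eq_add_neg] using k
    · have k := step hpq h2 hs (cp e b') (cp (fun j => e j * b j 0) b')
        (y := av fun ε => ‖cp (fun j => c j * (1 + a j 0 * sg true)) a' ε‖ ^ p)
        (z := av fun ε => ‖cp (fun j => c j * (1 + a j 0 * sg false)) a' ε‖ ^ p)
        (av_nonneg fun _ => by positivity) (av_nonneg fun _ => by positivity)
      have e1 := fun σ ε => cp_lin e (fun j => b j 0) b' 1 σ ε
      simp only [one_mul] at e1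
      simp only [hz, hw, one_mul, cp_lin e, e1]
      simpa [sg, sub_eq_add_neg, mul_comm] using k

lemma av_equiv {I I' : Type} [Fintype I] [DecidableEq I] [Fintype I'] [DecidableEq I']
    (e : I ≃ I') (f : (I → Bool) → ℝ) : av f = av fun ε : I' → Bool => f (ε ∘ e) := by
  rw [av, av, Fintype.card_congr e, ← (e.symm.arrowCongr (Equiv.refl Bool)).sum_comp]
  rfl

/-- The bilinear form of Beckner's inequality on the cube. -/
lemma cube {I J L : Type} [Fintype I] [DecidableEq I] [Fintype J] [Fintype L] {p q s : ℝ}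
    (hpq : p.HolderConjugate q) (h2 : p ≤ 2) (hs : s ^ 2 = p - 1) (z w : I → ℂ)
    (h : ∀ i, (z i = Complex.I * s ∧ w i = 1) ∨ (z i = 1 ∧ w i = Complex.I * s))
    (c : J → ℂ) (a : J → I → ℂ) (e : L → ℂ) (b : L → I → ℂ) :
    (av fun ε => ‖cp c (fun j i => z i * a j i) ε * cp e (fun j i => w i * b j i) ε‖) ≤
      (av fun ε => ‖cp c a ε‖ ^ p) ^ (1 / p) * (av fun ε => ‖cp e b ε‖ ^ p) ^ (1 / p) := by
  set E := Fintype.equivFin I
  have k : ∀ {K : Type} [Fintype K] (c : K → ℂ) (a : K → I → ℂ) (ε : Fin _ → Bool),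
      cp c a (ε ∘ E) = cp c (fun j i => a j (E.symm i)) ε := fun c a ε => by
    simp only [cp, ← E.prod_comp]
    simp
  simp only [av_equiv E, k]
  exact cube_fin hpq h2 hs _ (fun i => z (E.symm i)) (fun i => w (E.symm i)) (fun i => h _) _ _ _ _

end Pool.Agent.P.MP_961199_an.Hom
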