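import Pool.Agent.P.MP_961199_an.Hom.Base
import Pool.Agent.P.MP_961199_an.Hom.Cube

/-!
The central limit theorem transfers the cube inequality to Gaussian exponential sums.
-/

set_option autoImplicit false
set_option linter.unusedSectionVars false

namespace Pool.Agent.P.MP_961199_an.Hom

open MeasureTheory ProbabilityTheory Real Filter Topology

lemma sum_prod_cube {I R : Type} [Fintype I] [DecidableEq I] [CommSemiring R]
    (g : I → Bool → R) : ∑ ε : I → Bool, ∏ i, g i (ε i) = ∏ i, (g i true + g i false) := by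
  rw [← Fintype.piFinset_univ, ← Finset.prod_univ_sum]
  simp

lemma av_mono {I : Type} [Fintype I] [DecidableEq I] {f g : (I → Bool) → ℝ}
    (h : ∀ ε, f ε ≤ g ε) : av f ≤ av g :=
  div_le_div_of_nonneg_right (Finset.sum_le_sum fun ε _ => h ε) (by positivity)

lemma lim_scale {f : ℂ → ℂ} {f' : ℂ} (hf : HasDerivAt f f' 0) (h0 : f 0 = 0) {u : ℕ → ℝ}
    (hu : Tendsto u atTop atTop) (c : ℂ) :
    Tendsto (fun n => (u n : ℂ) * f (c / u n)) atTop (𝓝 (f' * c)) := by
  have := hf.hasFDerivAt.lim c (c := fun n => (u n : ℂ)) (l := atTop)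
    (by simpa [Function.comp_def] using tendsto_abs_atTop_atTop.comp hu)
  simpa [h0, div_eq_inv_mul, mul_comm] using this

lemma tendsto_sqrt_nat : Tendsto (fun n : ℕ => √(n : ℝ)) atTop atTop :=
  tendsto_sqrt_atTop.comp tendsto_natCast_atTop_atTop

lemma sqrt_nat_sq (n : ℕ) : ((√(n : ℝ) : ℝ) : ℂ) ^ 2 = n := by
  rw [← Complex.ofReal_pow, sq_sqrt (Nat.cast_nonneg n)]; simp

lemma tendsto_cosh_pow (t : ℂ) :
    Tendsto (fun n : ℕ => Complex.cosh (t / √n) ^ n) atTop (𝓝 (Complex.exp (t ^ 2 / 2))) := by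
  have h1 := lim_scale (Complex.hasDerivAt_sinh 0) Complex.sinh_zero tendsto_sqrt_nat (t / 2)
  have h2 := Complex.tendsto_one_add_pow_exp_of_tendsto (t := t ^ 2 / 2)
    (g := fun n => 2 * Complex.sinh (t / 2 / √n) ^ 2) (by
      convert (h1.pow 2).const_mul 2 using 2 with n
      · rw [mul_pow, sqrt_nat_sq]; ring
      · simp; ring)
  convert h2 using 3 with n
  rw [show t / √n = 2 * (t / 2 / √n) by ring, Complex.cosh_two_mul, Complex.cosh_sq]
  ring

variable {κ : Type} [Fintype κ] [DecidableEq κ]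

/-- Normalised sums of signs. -/
noncomputable def SN (N : ℕ) (ε : κ × Fin N → Bool) : κ → ℝ :=
  fun k => (∑ i, sg (ε (k, i))) / √N

lemma tendsto_mgf (t : κ → ℂ) :
    Tendsto (fun N => (∑ ε : κ × Fin N → Bool, Complex.exp (∑ k, t k * SN N ε k)) /
      2 ^ Fintype.card (κ × Fin N)) atTop (𝓝 (Complex.exp (∑ k, t k ^ 2 / 2))) := by
  rw [Complex.exp_sum]
  convert tendsto_finsetProd Finset.univ fun k _ => tendsto_cosh_pow (t k) using 2 with N
  have e : ∀ ε : κ × Fin N → Bool, Complex.exp (∑ k, t k * SN N ε k) =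
      ∏ x : κ × Fin N, Complex.exp (t x.1 / √N * sg (ε x)) := fun ε => by
    rw [← Complex.exp_sum, Fintype.sum_prod_type]
    congr 1
    refine Finset.sum_congr rfl fun k _ => ?_
    simp only [SN]
    rw [← Finset.mul_sum]
    push_cast
    ring
  simp_rw [e]
  rw [sum_prod_cube fun (x : κ × Fin N) b => Complex.exp (t x.1 / √N * sg b), ← Finset.card_univ,
    ← Finset.prod_const, ← Finset.prod_div_distrib, Fintype.prod_prod_type]
  refine Finset.prod_congr rfl fun k _ => ?_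
  simp [sg, Complex.cosh, div_pow]

lemma av_exp_bdd (L : ℝ) (hL : 0 ≤ L) :
    ∃ K, ∀ᶠ N in atTop, (av fun ε : κ × Fin N → Bool => exp (L * |‖SN N ε‖|)) ≤ K := by
  have h1 := tendsto_finsetSum Finset.univ fun (σ : κ → Bool) _ =>
    (Complex.continuous_re.tendsto _).comp (tendsto_mgf fun k => ((L * sg (σ k) : ℝ) : ℂ))
  refine ⟨_, (h1.eventually (gt_mem_nhds (lt_add_one _))).mono fun N hN => le_trans ?_ hN.le⟩
  have e : ∀ x : κ → ℝ, exp (L * |‖x‖|) ≤ ∑ σ : κ → Bool, exp (∑ k, L * sg (σ k) * x k) :=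
    fun x => by
    simp_rw [exp_sum]
    rw [sum_prod_cube fun k b => exp (L * sg b * x k), abs_norm]
    calc exp (L * ‖x‖) ≤ exp (∑ k, L * |x k|) := by
          rw [← Finset.mul_sum]
          refine exp_le_exp.2 (mul_le_mul_of_nonneg_left ?_ hL)
          refine (pi_norm_le_iff_of_nonneg (by positivity)).2 fun k => ?_
          exact Finset.single_le_sum (f := fun k => |x k|) (fun _ _ => abs_nonneg _)
            (Finset.mem_univ k)
      _ ≤ _ := by
          rw [exp_sum]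
          refine Finset.prod_le_prod (fun _ _ => (exp_pos _).le) fun k _ => ?_
          have h1 := exp_pos (L * x k)
          have h2 := exp_pos (-(L * x k))
          rcases abs_cases (x k) with h | h <;> simp [h.1, sg] <;> positivity
  refine (av_mono fun ε => e _).trans_eq ?_
  rw [av, Finset.sum_comm, Finset.sum_div]
  refine Finset.sum_congr rfl fun σ _ => ?_
  simp only [Function.comp]
  norm_cast

/-- The law of the normalised sums. -/
noncomputable def law (κ : Type) [Fintype κ] [DecidableEq κ] (N : ℕ) :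
    ProbabilityMeasure (EuclideanSpace ℝ κ) :=
  ⟨(PMF.uniformOfFintype (κ × Fin N → Bool)).toMeasure.map fun ε => WithLp.toLp 2 (SN N ε),
    Measure.isProbabilityMeasure_map (measurable_of_finite _).aemeasurable⟩

lemma integral_law {F : Type*} [NormedAddCommGroup F] [NormedSpace ℝ F] [CompleteSpace F] (N : ℕ)
    {f : EuclideanSpace ℝ κ → F} (hf : Continuous f) :
    ∫ x, f x ∂(law κ N : Measure _) = ((2 : ℝ) ^ Fintype.card (κ × Fin N))⁻¹ •
      ∑ ε : κ × Fin N → Bool, f (WithLp.toLp 2 (SN N ε)) := by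
  rw [law, ProbabilityMeasure.coe_mk,
    integral_map (measurable_of_finite _).aemeasurable hf.aestronglyMeasurable,
    PMF.integral_eq_sum, Finset.smul_sum]
  simp

lemma tendsto_law : Tendsto (law κ) atTop
    (𝓝 ⟨stdGaussian (EuclideanSpace ℝ κ), inferInstance⟩) := by
  refine ProbabilityMeasure.tendsto_iff_tendsto_charFun.2 fun t => ?_
  convert tendsto_mgf fun k => (t k : ℂ) * Complex.I using 2 with N
  · rw [charFun_apply, integral_law N (by fun_prop), Complex.real_smul, div_eq_inv_mul]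
    push_cast
    congr 1
    refine Finset.sum_congr rfl fun ε _ => ?_
    simp only [PiLp.inner_apply, RCLike.inner_apply, conj_trivial]
    push_cast
    rw [Finset.sum_mul]
    congr 1
    exact Finset.sum_congr rfl fun k _ => by ring
  · rw [ProbabilityMeasure.coe_mk, charFun_stdGaussian, ← Complex.ofReal_pow,
      EuclideanSpace.real_norm_sq_eq]
    simp [mul_pow, neg_div, Finset.sum_div]

lemma tendsto_bcf {Λ : Type*} [MetricSpace Λ] [SecondCountableTopology Λ] {P : ℕ → Λ} {P₀ : Λ}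
    (hP : Tendsto P atTop (𝓝 P₀)) {Φ : Λ × (κ → ℝ) → ℝ} (hc : Continuous Φ) {R : ℝ}
    (hR : ∀ y, ‖Φ y‖ ≤ R) :
    Tendsto (fun N => av fun ε : κ × Fin N → Bool => Φ (P N, SN N ε)) atTop
      (𝓝 (∫ x, Φ (P₀, x) ∂gauss κ)) := by
  borelize Λ
  have h1 := (ProbabilityMeasure.continuous_prod.tendsto _).comp
    (((continuous_diracProba.tendsto _).comp hP).prodMk_nhds (tendsto_law (κ := κ)))
  have hc' : Continuous fun y : Λ × EuclideanSpace ℝ κ => Φ (y.1, y.2.ofLp) := by fun_prop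
  have h2 := ProbabilityMeasure.tendsto_iff_forall_integral_tendsto.1 h1
    (BoundedContinuousFunction.ofNormedAddCommGroup _ hc' R fun _ => hR _)
  have e : ∀ (a : Λ) (μ : ProbabilityMeasure (EuclideanSpace ℝ κ)),
      ∫ y, Φ (y.1, y.2.ofLp) ∂((diracProba a).prod μ).toMeasure =
        ∫ x, Φ (a, x.ofLp) ∂μ.toMeasure := fun a μ => by
    rw [ProbabilityMeasure.toMeasure_prod, diracProba, ProbabilityMeasure.coe_mk,
      Measure.dirac_prod, integral_map (by fun_prop) hc'.aestronglyMeasurable]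
  simp only [BoundedContinuousFunction.coe_ofNormedAddCommGroup, Function.comp, e] at h2
  convert h2 using 2 with N
  · rw [integral_law N (by fun_prop), av, smul_eq_mul, div_eq_inv_mul]
  · rw [gauss_eq, integral_map (by fun_prop) (by fun_prop)]
    rfl

lemma tendsto_eb {Λ : Type*} [MetricSpace Λ] [SecondCountableTopology Λ] {P : ℕ → Λ} {P₀ : Λ}
    (hP : Tendsto P atTop (𝓝 P₀)) {Φ : Λ × (κ → ℝ) → ℝ} (hc : Continuous Φ) (h0 : ∀ y, 0 ≤ Φ y)
    (hb : EB (fun y : Metric.closedBall P₀ 1 × (κ → ℝ) => ‖y.2‖) fun y => Φ (y.1, y.2)) :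
    Tendsto (fun N => av fun ε : κ × Fin N → Bool => Φ (P N, SN N ε)) atTop
      (𝓝 (∫ x, Φ (P₀, x) ∂gauss κ)) := by
  have hb0 : EB (fun x : κ → ℝ => ‖x‖) fun x => Φ (P₀, x) :=
    hb.comp (fun x => (⟨P₀, by simp⟩, x)) (K := 1) (L := 0) zero_le_one fun x => by simp
  have hi1 := hb0.integrable (gauss κ) (by fun_prop)
  have hi2 := (hb0.mul hb0).integrable (gauss κ) (by fun_prop)
  obtain ⟨C, c, hC, hc0, hb2⟩ := hb.mul hb
  obtain ⟨K, hK⟩ := av_exp_bdd (κ := κ) c hc0
  refine Metric.tendsto_nhds.2 fun δ hδ => ?_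
  obtain ⟨R, hR1, hR2, hR⟩ := (((tendsto_const_nhds (x := C * K)).div_atTop tendsto_id).eventually
    (gt_mem_nhds (by positivity : 0 < δ / 3)) |>.and
    ((((tendsto_const_nhds (x := ∫ x, Φ (P₀, x) * Φ (P₀, x) ∂gauss κ)).div_atTop
      tendsto_id).eventually (gt_mem_nhds (by positivity : 0 < δ / 3))).and
      (eventually_gt_atTop 0))).exists
  simp only [id] at hR1 hR2
  have ht : ∀ y, Φ y ≤ min (Φ y) R + Φ y * Φ y / R := fun y => by
    rcases le_total (Φ y) R with h | h
    · rw [min_eq_left h]; have := h0 y; exact le_add_of_nonneg_right (by positivity)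
    · rw [min_eq_right h, ← sub_le_iff_le_add', le_div_iff₀ hR]; nlinarith
  have hm : ∀ y, ‖min (Φ y) R‖ ≤ R := fun y => by
    rw [Real.norm_of_nonneg (le_min (h0 y) hR.le)]; exact min_le_right _ _
  have h1 := Metric.tendsto_nhds.1 (tendsto_bcf hP (Φ := fun y => min (Φ y) R) (by fun_prop) hm)
    (δ / 3) (by positivity)
  have hi3 : Integrable (fun x => min (Φ (P₀, x)) R) (gauss κ) :=
    (integrable_const R).mono' (by fun_prop) (ae_of_all _ fun x => hm _)
  have k1 : ∫ x, min (Φ (P₀, x)) R ∂gauss κ ≤ ∫ x, Φ (P₀, x) ∂gauss κ :=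
    integral_mono hi3 hi1 fun x => min_le_left _ _
  have k2 := integral_mono hi1 (hi3.add (hi2.div_const R)) fun x => ht (P₀, x)
  simp only [Pi.add_apply] at k2
  rw [integral_add hi3 (hi2.div_const R), integral_div] at k2
  filter_upwards [h1, hK, hP.eventually (Metric.closedBall_mem_nhds P₀ one_pos)] with N n1 n2 n3
  have k3 : (av fun ε : κ × Fin N → Bool => min (Φ (P N, SN N ε)) R) ≤
      av fun ε : κ × Fin N → Bool => Φ (P N, SN N ε) := av_mono fun ε => min_le_left _ _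
  have k4 : (av fun ε : κ × Fin N → Bool => Φ (P N, SN N ε)) ≤
      (av fun ε : κ × Fin N → Bool => min (Φ (P N, SN N ε)) R) + C * K / R := by
    calc _ ≤ av fun ε : κ × Fin N → Bool =>
          min (Φ (P N, SN N ε)) R + C / R * exp (c * |‖SN N ε‖|) := av_mono fun ε => by
          refine (ht _).trans (add_le_add le_rfl ?_)
          rw [div_mul_eq_mul_div]
          exact div_le_div_of_nonneg_right
            ((le_abs_self _).trans (hb2 (⟨P N, n3⟩, SN N ε))) hR.le
      _ = (av fun ε : κ × Fin N → Bool => min (Φ (P N, SN N ε)) R) +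
          C / R * av fun ε : κ × Fin N → Bool => exp (c * |‖SN N ε‖|) := by
          simp only [av, Finset.sum_add_distrib, ← Finset.mul_sum]; ring
      _ ≤ _ := by
          rw [mul_div_right_comm]
          exact add_le_add le_rfl (mul_le_mul_of_nonneg_left n2 (by positivity))
  rw [Real.dist_eq, abs_lt] at n1 ⊢
  constructor <;> linarith [n1.1, n1.2]

/-- An exponential sum with parameters. -/
noncomputable def Ex {J : Type} [Fintype J] (P : (J → ℂ) × (J → κ → ℂ)) (x : κ → ℝ) : ℂ :=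
  ∑ j, P.1 j * Complex.exp (∑ k, P.2 j k * x k)

/-- A normalised exponential sum. -/
noncomputable def Ey {J : Type} [Fintype J] (c : J → ℂ) (b : J → κ → ℂ) (x : κ → ℝ) : ℂ :=
  ∑ j, c j * Complex.exp (∑ k, (b j k * x k - b j k ^ 2 / 2))

lemma eb_Ex {J : Type} [Fintype J] {X : Type*} {ρ : X → ℝ} {Q : X → (J → ℂ) × (J → κ → ℂ)}
    {x : X → κ → ℝ} {K : ℝ} (hK : 0 ≤ K) (hQ : ∀ y, ‖Q y‖ ≤ K) (hx : ∀ y, ‖x y‖ ≤ |ρ y|) :
    EB ρ fun y => Ex (Q y) (x y) := by
  refine EB.sum _ fun j => EB.mul (EB.of_lin le_rfl hK fun y => ?_)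
    (EB.cexp (K := Fintype.card κ * K) (L := 0) (by positivity) fun y => ?_)
  · rw [zero_mul, zero_add]
    exact (norm_le_pi_norm _ j).trans ((norm_fst_le _).trans (hQ y))
  · refine (norm_sum_le _ _).trans ((Finset.sum_le_card_nsmul _ _ (K * |ρ y|) fun k _ => ?_).trans_eq
      (by simp [mul_assoc]))
    rw [norm_mul, Complex.norm_real]
    exact mul_le_mul ((norm_le_pi_norm _ k).trans ((norm_le_pi_norm _ j).trans
      ((norm_snd_le _).trans (hQ y)))) ((norm_le_pi_norm _ k).trans (hx y)) (norm_nonneg _) hK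

lemma cp_eq_Ex {J : Type} [Fintype J] (c : J → ℂ) (b : J → κ → ℂ) :
    ∃ (P : ℕ → (J → ℂ) × (J → κ → ℂ)) (P₀ : (J → ℂ) × (J → κ → ℂ)), Tendsto P atTop (𝓝 P₀) ∧
      Ex P₀ = Ey c b ∧ ∀ᶠ N in atTop, ∀ ε : κ × Fin N → Bool,
        cp c (fun j x => b j x.1 / √N) ε = Ex (P N) (SN N ε) := by
  set A : ℕ → ℂ → ℂ := fun N t => Complex.log (1 + -t ^ 2 / (N : ℝ)) / 2 with hA
  set B : ℕ → ℂ → ℂ := fun N t => Complex.log (1 + t / √N) - A N t with hB
  have hd : HasDerivAt (fun z : ℂ => Complex.log (1 + z)) 1 0 := by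
    simpa using ((hasDerivAt_id (0 : ℂ)).const_add 1).clog (by simp)
  have lA : ∀ t, Tendsto (fun N : ℕ => (N : ℂ) * A N t) atTop (𝓝 (-t ^ 2 / 2)) := fun t => by
    simpa [hA, mul_div_assoc] using
      (lim_scale hd (by simp) tendsto_natCast_atTop_atTop (-t ^ 2)).div_const 2
  have l0 : ∀ t : ℂ, Tendsto (fun N : ℕ => t / √N) atTop (𝓝 0) := fun t => by
    simpa [div_eq_mul_inv] using ((Complex.continuous_ofReal.tendsto _).comp
      (tendsto_inv_atTop_zero.comp tendsto_sqrt_nat)).const_mul t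
  have lB : ∀ t, Tendsto (fun N : ℕ => (√N : ℂ) * B N t) atTop (𝓝 t) := fun t => by
    have := (lim_scale hd (by simp) tendsto_sqrt_nat t).sub ((lA t).mul (l0 1))
    simp only [one_mul, mul_zero, sub_zero] at this
    refine this.congr' ((eventually_gt_atTop 0).mono fun N hN => ?_)
    have h1 : ((√N : ℝ) : ℂ) ≠ 0 := by simpa using hN.ne'
    simp only [hB]
    rw [← sqrt_nat_sq N]
    field_simp
  refine ⟨fun N => (fun j => c j * Complex.exp (∑ k, N * A N (b j k)),
    fun j k => √N * B N (b j k)), (fun j => c j * Complex.exp (∑ k, -b j k ^ 2 / 2), b), ?_, ?_, ?_⟩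
  · refine Tendsto.prodMk_nhds (tendsto_pi_nhds.2 fun j => ?_)
      (tendsto_pi_nhds.2 fun j => tendsto_pi_nhds.2 fun k => lB _)
    exact (tendsto_finsetSum _ fun k _ => lA _).cexp.const_mul _
  · funext x
    refine Finset.sum_congr rfl fun j _ => ?_
    rw [mul_assoc, ← Complex.exp_add, ← Finset.sum_add_distrib]
    congr 2
    exact Finset.sum_congr rfl fun k _ => by ring
  · have h1 : ∀ᶠ N : ℕ in atTop, ∀ j k, ‖b j k / √N‖ < 1 :=
      eventually_all.2 fun j => eventually_all.2 fun k =>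
        (l0 (b j k)).norm.eventually (gt_mem_nhds (by simp))
    filter_upwards [h1, eventually_gt_atTop 0] with N h1 hN ε
    have hs : ((√N : ℝ) : ℂ) ≠ 0 := by simpa using hN.ne'
    have e : ∀ (t : ℂ) (σ : Bool), ‖t / √N‖ < 1 →
        1 + t / √N * sg σ = Complex.exp (A N t + B N t * sg σ) := fun t σ ht => by
      have n1 : 1 + t / √N ≠ 0 := fun h => by
        rw [eq_neg_of_add_eq_zero_right h] at ht; simp at ht
      have n2 : 1 - t / √N ≠ 0 := fun h => by
        rw [← sub_eq_zero.1 h] at ht; simp at ht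
      have e1 : 1 + -t ^ 2 / ((N : ℝ) : ℂ) = (1 - t / √N) * (1 + t / √N) := by
        rw [Complex.ofReal_natCast, ← sqrt_nat_sq N]; ring
      cases σ
      · rw [show A N t + B N t * sg false = Complex.log (1 + -t ^ 2 / (N : ℝ)) -
          Complex.log (1 + t / √N) by simp [hA, hB, sg]; ring, Complex.exp_sub, e1,
          Complex.exp_log n1, Complex.exp_log (mul_ne_zero n2 n1), mul_div_cancel_right₀ _ n1]
        simp [sg, sub_eq_add_neg]
      · simp [hB, sg, Complex.exp_log n1]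
    refine Finset.sum_congr rfl fun j _ => ?_
    simp only [e _ _ (h1 j _)]
    rw [mul_assoc, ← Complex.exp_add, ← Finset.sum_add_distrib, ← Complex.exp_sum,
      Fintype.sum_prod_type]
    congr 2
    refine Finset.sum_congr rfl fun k _ => ?_
    simp only [SN, Finset.sum_add_distrib, ← Finset.mul_sum]
    push_cast
    simp only [Finset.sum_const, Finset.card_univ, Fintype.card_fin, nsmul_eq_mul]
    field_simp

lemma tendsto_cp {J L : Type} [Fintype J] [Fintype L] (c : J → ℂ) (a : J → κ → ℂ) (e : L → ℂ)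
    (b : L → κ → ℂ) {r : ℝ} (hr : 0 ≤ r) :
    Tendsto (fun N : ℕ => av fun ε : κ × Fin N → Bool =>
      ‖cp c (fun j x => a j x.1 / √N) ε * cp e (fun j x => b j x.1 / √N) ε‖ ^ r) atTop
      (𝓝 (∫ x, ‖Ey c a x * Ey e b x‖ ^ r ∂gauss κ)) := by
  obtain ⟨P, P₀, hP, e1, h1⟩ := cp_eq_Ex c a
  obtain ⟨Q, Q₀, hQ, e2, h2⟩ := cp_eq_Ex e b
  have hn : ∀ y : Metric.closedBall (P₀, Q₀) 1, ‖y.1‖ ≤ ‖(P₀, Q₀)‖ + 1 := fun y =>
    norm_le_of_mem_closedBall y.2
  have b1 : EB (fun y : Metric.closedBall (P₀, Q₀) 1 × (κ → ℝ) => ‖y.2‖)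
      fun y => Ex y.1.1.1 y.2 :=
    eb_Ex (by positivity) (fun y => (norm_fst_le _).trans (hn y.1)) fun y => le_abs_self _
  have b2 : EB (fun y : Metric.closedBall (P₀, Q₀) 1 × (κ → ℝ) => ‖y.2‖)
      fun y => Ex y.1.1.2 y.2 :=
    eb_Ex (by positivity) (fun y => (norm_snd_le _).trans (hn y.1)) fun y => le_abs_self _
  have := tendsto_eb (hP.prodMk_nhds hQ) (Φ := fun y => ‖Ex y.1.1 y.2 * Ex y.1.2 y.2‖ ^ r)
    (Continuous.rpow_const (by unfold Ex; fun_prop) fun _ => Or.inr hr) (fun _ => by positivity)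
    ((b1.mul b2).rpow hr)
  simp only [e1, e2] at this
  refine this.congr' ?_
  filter_upwards [h1, h2] with N h1 h2
  simp only [h1, h2]

/-- The bilinear form of Beckner's inequality for Gaussian exponential sums. -/
lemma gauss_exp {J L : Type} [Fintype J] [Fintype L] {p q s : ℝ}
    (hpq : p.HolderConjugate q) (h2 : p ≤ 2) (hs : s ^ 2 = p - 1) (z w : κ → ℂ)
    (h : ∀ i, (z i = Complex.I * s ∧ w i = 1) ∨ (z i = 1 ∧ w i = Complex.I * s))
    (c : J → ℂ) (a : J → κ → ℂ) (e : L → ℂ) (b : L → κ → ℂ) :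
    ∫ x, ‖Ey c (fun j i => z i * a j i) x * Ey e (fun j i => w i * b j i) x‖ ∂gauss κ ≤
      (∫ x, ‖Ey c a x‖ ^ p ∂gauss κ) ^ (1 / p) * (∫ x, ‖Ey e b x‖ ^ p ∂gauss κ) ^ (1 / p) := by
  have hp := hpq.pos
  have l1 := tendsto_cp c (fun j i => z i * a j i) e (fun j i => w i * b j i) zero_le_one
  have l2 := tendsto_cp c a (fun _ : Unit => 1) (fun _ _ => 0) hp.le
  have l3 := tendsto_cp e b (fun _ : Unit => 1) (fun _ _ => 0) hp.le
  have e1 : ∀ x : κ → ℝ, Ey (fun _ : Unit => 1) (fun _ _ => 0) x = 1 := fun x => by simp [Ey]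
  have e2 : ∀ (N : ℕ) (ε : κ × Fin N → Bool),
      cp (fun _ : Unit => 1) (fun _ _ => 0 / √N) ε = 1 := fun N ε => by simp [cp]
  simp only [rpow_one, e1, e2, mul_one] at l1 l2 l3
  refine le_of_tendsto_of_tendsto' l1 ((l2.rpow_const (Or.inr (by positivity))).mul
    (l3.rpow_const (Or.inr (by positivity)))) fun N => ?_
  simpa only [mul_div_assoc] using cube hpq h2 hs (fun x : κ × Fin N => z x.1) (fun x => w x.1)
    (fun x => h _) c (fun j x => a j x.1 / √N) e (fun j x => b j x.1 / √N)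

end Pool.Agent.P.MP_961199_an.Hom
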