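import Pool.Agent.P.MP_961199_an.Hom.Poly
import Pool.Agent.P.MP_961199_an.Hom.CLT

/-!
The bilinear Beckner inequality for polynomials, and the bound on the top homogeneous part.
-/

set_option autoImplicit false
set_option linter.unusedSectionVars false

namespace Pool.Agent.P.MP_961199_an.Hom

open MeasureTheory ProbabilityTheory Real Filter Topology MvPolynomial

lemma mp_integral {X Y F : Type*} [MeasurableSpace X] [MeasurableSpace Y] [NormedAddCommGroup F]
    [NormedSpace ℝ F] {μ : Measure X} {ν : Measure Y} {f : X → Y} (h : MeasurePreserving f μ ν)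
    {g : Y → F} (hg : AEStronglyMeasurable g ν) : ∫ x, g (f x) ∂μ = ∫ y, g y ∂ν := by
  conv_rhs => rw [← h.map_eq]
  rw [integral_map h.measurable.aemeasurable (by rw [h.map_eq]; exact hg)]

lemma EB.tendsto {E F : Type*} [NormedAddCommGroup E] [NormedSpace ℝ E] [MeasurableSpace E]
    [BorelSpace E] [SecondCountableTopology E] [CompleteSpace E] [NormedAddCommGroup F]
    [NormedSpace ℝ F] (μ : Measure E) [IsGaussian μ] {φ : ℕ → E → F} {ψ : E → F}
    (h : EB (fun y : ℕ × E => ‖y.2‖) fun y => φ y.1 y.2) (hm : ∀ n, Continuous (φ n))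
    (hl : ∀ x, Tendsto (fun n => φ n x) atTop (𝓝 (ψ x))) :
    Tendsto (fun n => ∫ x, φ n x ∂μ) atTop (𝓝 (∫ x, ψ x ∂μ)) := by
  obtain ⟨C, c, -, -, h⟩ := h
  exact tendsto_integral_of_dominated_convergence _ (fun n => (hm n).aestronglyMeasurable)
    ((integrable_exp_norm μ c).const_mul C) (fun n => ae_of_all _ fun x => h (n, x))
    (ae_of_all _ hl)

variable {ι : Type} [Fintype ι]

/-- Joining two vectors. -/
def jn (x : (ι → ℝ) × (ι → ℝ)) : ι ⊕ ι → ℝ := Sum.elim x.1 x.2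

/-- Splitting a vector. -/
def sp (x : ι ⊕ ι → ℝ) : (ι → ℝ) × (ι → ℝ) := (fun k => x (.inl k), fun k => x (.inr k))

/-- The quarter turn. -/
def sw (x : (ι → ℝ) × (ι → ℝ)) : (ι → ℝ) × (ι → ℝ) := (x.2, -x.1)

lemma mp_sp : MeasurePreserving sp (gauss (ι ⊕ ι)) (g2 ι) :=
  measurePreserving_sumPiEquivProdPi fun _ : ι ⊕ ι => gaussianReal 0 1

lemma mp_jn : MeasurePreserving jn (g2 ι) (gauss (ι ⊕ ι)) := by
  have e : jn = (MeasurableEquiv.sumPiEquivProdPi fun _ : ι ⊕ ι => ℝ).symm := by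
    funext x k
    cases k <;> rfl
  rw [e]
  exact measurePreserving_sumPiEquivProdPi_symm fun _ : ι ⊕ ι => gaussianReal 0 1

lemma mp_sw : MeasurePreserving sw (g2 ι) (g2 ι) := by
  convert mp_rot (ι := ι) (π / 2) using 1
  funext x
  simp [sw, rot_apply]

lemma sw_rot (θ : ℝ) (x : (ι → ℝ) × (ι → ℝ)) : sw (rot θ x) = rot θ (sw x) := by
  simp [sw, rot_apply, add_comm]

lemma cx_sw (x : (ι → ℝ) × (ι → ℝ)) : cx (sw x) = (-Complex.I) • cx x := by
  funext j
  simp only [cx, sw, Pi.neg_apply, Pi.smul_apply, smul_eq_mul]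
  push_cast
  linear_combination (x.2 j : ℂ) * Complex.I_mul_I

@[fun_prop] lemma continuous_sw : Continuous (sw (ι := ι)) := by unfold sw; fun_prop
@[fun_prop] lemma continuous_cb : Continuous (cb (ι := ι)) := by unfold cb; fun_prop

lemma prod_avg {Ψ : (ι → ℝ) × (ι → ℝ) → ℂ} (hΨ : Measurable Ψ) {d : ℕ} {F : MvPolynomial ι ℂ}
    {k r : ℝ} (hk : 0 ≤ k) (hr : 0 < r)
    (h : ∀ x, ∃ Q : Polynomial ℂ, Q.eval 0 = eval ((k : ℂ) • cx x) (top d F) ∧
      ∀ θ : ℝ, ‖Q.eval (Complex.exp (θ * Complex.I))‖ = ‖Ψ (rot θ x)‖) :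
    ENNReal.ofReal (k ^ (2 * d * r) * ∫ x, ‖eval (cx x) (top d F)‖ ^ (2 * r) ∂g2 ι) ≤
      ∫⁻ x, ENNReal.ofReal (‖Ψ x * Ψ (sw x)‖ ^ r) ∂g2 ι := by
  have hi : Integrable (fun x => ‖eval (cx x) (top d F)‖ ^ (2 * r)) (g2 ι) :=
    ((EB.eval eb_cx _).rpow (by positivity)).integrable _
      (Continuous.rpow_const (by fun_prop) fun _ => Or.inr (by positivity)).aestronglyMeasurable
  rw [← integral_const_mul, ofReal_integral_eq_lintegral_ofReal (hi.const_mul _)
    (ae_of_all _ fun x => by positivity)]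
  refine le_trans (le_of_eq ?_) (avg_rot (T := fun x => (k ^ d * ‖eval (cx x) (top d F)‖) ^ 2)
    (hΨ.mul (hΨ.comp continuous_sw.measurable)).norm hr fun x => ?_)
  · refine lintegral_congr fun x => ?_
    rw [mul_pow, mul_rpow (by positivity) (by positivity), ← pow_mul, ← rpow_natCast,
      ← rpow_natCast, ← rpow_mul hk, ← rpow_mul (norm_nonneg _)]
    push_cast
    ring_nf
  · obtain ⟨Q, h0, h1⟩ := h x
    obtain ⟨Q', h0', h1'⟩ := h (sw x)
    refine ⟨Q * Q', ?_, fun θ => ?_⟩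
    · rw [Polynomial.eval_mul, h0, h0', cx_sw, eval_smul_top, eval_smul_top, eval_smul_top]
      simp [abs_of_nonneg hk, sq]
    · rw [Polynomial.eval_mul, norm_mul, h1, h1', ← norm_mul, ← sw_rot]
      rfl

/-- The complex Mehler transform in the form used below. -/
noncomputable def Psi (α β s : ℝ) (φ : (ι → ℂ) → ℂ) (x : (ι → ℝ) × (ι → ℝ)) : ℂ :=
  ∫ y, φ ((α : ℂ) • cx x + (s : ℂ) • cv y + (β : ℂ) • cb x) ∂gauss ι

lemma measurable_Psi (α β s : ℝ) {φ : (ι → ℂ) → ℂ} (h : Continuous φ) :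
    Measurable (Psi α β s φ) :=
  (StronglyMeasurable.integral_prod_right' (f := fun q : ((ι → ℝ) × (ι → ℝ)) × (ι → ℝ) =>
    φ ((α : ℂ) • cx q.1 + (s : ℂ) • cv q.2 + (β : ℂ) • cb q.1))
    (Continuous.stronglyMeasurable (by fun_prop))).measurable

lemma norm_aff (A D : ι → ℂ) (s : ℝ) (y : ι → ℝ) (k : ι) :
    ‖(A + (s : ℂ) • cv y + D) k‖ ≤ |s| * |‖y‖| + (‖A k‖ + ‖D k‖) := by
  have h : ‖((s : ℂ) • cv y) k‖ ≤ |s| * |‖y‖| := by
    simp only [Pi.smul_apply, smul_eq_mul, norm_mul, cv, Complex.norm_real, abs_norm]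
    exact mul_le_mul_of_nonneg_left (norm_le_pi_norm y k) (abs_nonneg s)
  exact (norm_add₃_le).trans (by linarith)

lemma integrable_aff (A D : ι → ℂ) (s : ℝ) (F : MvPolynomial ι ℂ) :
    Integrable (fun y => eval (A + (s : ℂ) • cv y + D) F) (gauss ι) := by
  have b1 : EB (fun y : ι → ℝ => ‖y‖) fun y => eval (A + (s : ℂ) • cv y + D) F :=
    EB.eval (fun k => EB.of_lin (abs_nonneg s) (by positivity) fun y => norm_aff A D s y k) F
  exact b1.integrable _ (Continuous.aestronglyMeasurable (by fun_prop))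

lemma meval_aeval {κ τ : Type*} (g : κ → MvPolynomial τ ℂ) (V : τ → ℂ) (H : MvPolynomial κ ℂ) :
    eval V (aeval g H) = eval (fun k => eval V (g k)) H := by
  induction H using MvPolynomial.induction_on with
  | C a => simp
  | add p q hp hq => rw [map_add, map_add, map_add, hp, hq]
  | mul_X p k hp => rw [map_mul, map_mul, map_mul, hp, aeval_X, eval_X]

/-- The class of exponential sums. -/
def XC (φ : (ι → ℂ) → ℂ) : Prop :=
  ∃ (J : Type) (_ : Fintype J) (c : J → ℂ) (b : J → ι → ℂ),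
    φ = fun z => ∑ j, c j * Complex.exp (∑ k, b j k * z k)

lemma XC.eval {V : (ι → ℂ) → ι → ℂ} (hV : ∀ k, XC fun z => V z k) (F : MvPolynomial ι ℂ) :
    XC fun z => MvPolynomial.eval (V z) F := by
  induction F using MvPolynomial.induction_on with
  | C a => exact ⟨Unit, inferInstance, fun _ => a, 0, by simp⟩
  | add p q hp hq =>
    obtain ⟨J, _, c, b, h⟩ := hp
    obtain ⟨L, _, e, b', h'⟩ := hq
    refine ⟨J ⊕ L, inferInstance, Sum.elim c e, Sum.elim b b', funext fun z => ?_⟩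
    simp [congrFun h z, congrFun h' z]
  | mul_X p k hp =>
    obtain ⟨J, _, c, b, h⟩ := hp
    obtain ⟨L, _, e, b', h'⟩ := hV k
    refine ⟨J × L, inferInstance, fun j => c j.1 * e j.2, fun j => b j.1 + b' j.2,
      funext fun z => ?_⟩
    rw [map_mul, eval_X, congrFun h z, congrFun h' z, Finset.sum_mul_sum, Fintype.sum_prod_type]
    refine Finset.sum_congr rfl fun j _ => Finset.sum_congr rfl fun l _ => ?_
    simp only [Pi.add_apply, add_mul, Finset.sum_add_distrib, Complex.exp_add]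
    ring

lemma beck_exp {p q s a c α β : ℝ} (hpq : p.HolderConjugate q) (h2 : p ≤ 2) (hs : s ^ 2 = p - 1)
    (hac : a ^ 2 + c ^ 2 = 1) (hc : c ^ 2 * p = s ^ 2) (hα : α + β = a) (hβ : α - β = s * c)
    {φ : (ι → ℂ) → ℂ} (hφ : XC φ) :
    ∫⁻ x, ENNReal.ofReal ‖Psi α β s φ x * Psi α β s φ (sw x)‖ ∂g2 ι ≤
      ENNReal.ofReal ((∫ x, ‖φ (cv x)‖ ^ p ∂gauss ι) ^ (2 / p)) := by
  classical
  have hp := hpq.pos
  obtain ⟨J, _, e, b, rfl⟩ := hφ
  set φ : (ι → ℂ) → ℂ := fun z => ∑ j, e j * Complex.exp (∑ k, b j k * z k) with hφ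
  have hcφ : Continuous φ := by fun_prop
  set e' : J → ℂ := fun j => e j * Complex.exp (∑ k, b j k ^ 2 / 2) with he'
  set B : ℂ → ℂ → J → ι ⊕ ι → ℂ := fun u v j => Sum.elim (fun k => u * b j k) fun k => v * b j k
    with hB
  have E : ∀ u v x, Ey e' (B u v) (jn x) = ∑ j, e j * Complex.exp (∑ k, (b j k *
      (u * x.1 k + v * x.2 k) + (1 - u ^ 2 - v ^ 2) * b j k ^ 2 / 2)) := fun u v x => by
    refine Finset.sum_congr rfl fun j _ => ?_
    rw [he', mul_assoc, ← Complex.exp_add, Fintype.sum_sum_type, ← Finset.sum_add_distrib,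
      ← Finset.sum_add_distrib]
    congr 2
    refine Finset.sum_congr rfl fun k _ => ?_
    simp only [hB, jn, Sum.elim_inl, Sum.elim_inr]
    ring
  have cE : ∀ u v, Continuous (Ey e' (B u v)) := fun u v => by unfold Ey; fun_prop
  have bE : ∀ u v, EB (fun x : ι ⊕ ι → ℝ => ‖x‖) (Ey e' (B u v)) := fun u v => by
    obtain ⟨-, P, -, h, -⟩ := cp_eq_Ex e' (B u v)
    rw [← h]
    exact eb_Ex (Q := fun _ => P) (norm_nonneg P) (fun _ => le_rfl) fun y => le_abs_self _
  have N : ∀ u v : ℝ, u ^ 2 + v ^ 2 = 1 →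
      ∫ x, ‖Ey e' (B u v) x‖ ^ p ∂gauss (ι ⊕ ι) = ∫ x, ‖φ (cv x)‖ ^ p ∂gauss ι := fun u v h => by
    rw [← mp_integral mp_jn (((cE u v).norm.rpow_const fun _ => Or.inr hp.le).aestronglyMeasurable),
      ← mp_integral (mp_comb h) (Continuous.rpow_const (f := fun x => ‖φ (cv x)‖) (by fun_prop)
        fun _ => Or.inr hp.le).aestronglyMeasurable]
    have h' : 1 - (u : ℂ) ^ 2 - (v : ℂ) ^ 2 = 0 := by
      rw [sub_sub, sub_eq_zero]; exact_mod_cast h.symm
    simp [E, h', hφ, cv]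
  have P : ∀ x, Psi α β s φ x = ∑ j, e j * Complex.exp (∑ k, (b j k *
      (a * x.1 k + Complex.I * s * c * x.2 k) + s ^ 2 * b j k ^ 2 / 2)) := fun x => by
    have e1 : ∀ j (y : ι → ℝ), e j * Complex.exp (∑ k, b j k *
        ((α : ℂ) • cx x + (s : ℂ) • cv y + (β : ℂ) • cb x) k) = e j * Complex.exp (∑ k, b j k *
        (a * x.1 k + Complex.I * s * c * x.2 k)) * Complex.exp (∑ k, s * b j k * y k) :=
      fun j y => by
      rw [mul_assoc, ← Complex.exp_add, ← Finset.sum_add_distrib]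
      congr 2
      refine Finset.sum_congr rfl fun k _ => ?_
      have h1 : (α : ℂ) + β = a := by exact_mod_cast hα
      have h2 : (α : ℂ) - β = s * c := by exact_mod_cast hβ
      simp only [cx, cv, cb, Pi.add_apply, Pi.smul_apply, smul_eq_mul]
      linear_combination b j k * x.1 k * h1 + b j k * Complex.I * x.2 k * h2
    simp only [Psi, hφ, e1]
    have hi : ∀ j, Integrable (fun y : ι → ℝ => Complex.exp (∑ k, s * b j k * y k)) (gauss ι) :=
      fun j => by
      have := eb_Ex (ρ := fun y : ι → ℝ => ‖y‖) (x := fun y => y)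
        (Q := fun _ => (fun _ : Unit => 1, fun _ k => s * b j k)) (norm_nonneg _)
        (fun _ => le_rfl) fun y => le_abs_self _
      simpa [Ex] using this.integrable (gauss ι)
        (Continuous.aestronglyMeasurable (by unfold Ex; fun_prop))
    rw [integral_finsetSum _ fun j _ => (hi j).const_mul _]
    refine Finset.sum_congr rfl fun j _ => ?_
    rw [integral_const_mul, integral_cexp, mul_assoc, ← Complex.exp_add, Finset.sum_div,
      ← Finset.sum_add_distrib]
    simp only [mul_pow]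
  have hS : 1 - (a : ℂ) ^ 2 - (Complex.I * s * c) ^ 2 = s ^ 2 := by
    have h1 : (a : ℂ) ^ 2 + c ^ 2 = 1 := by exact_mod_cast hac
    have h2 : (c : ℂ) ^ 2 * (s ^ 2 + 1) = s ^ 2 := by
      have : c ^ 2 * (s ^ 2 + 1) = s ^ 2 := by linear_combination hc + c ^ 2 * hs
      exact_mod_cast this
    linear_combination h2 - h1 - s ^ 2 * c ^ 2 * Complex.I_mul_I
  have k := gauss_exp hpq h2 hs (Sum.elim (fun _ : ι => 1) fun _ : ι => Complex.I * s)
    (Sum.elim (fun _ => Complex.I * s) fun _ => 1) (fun i => by cases i <;> simp)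
    e' (B a c) e' (B (-c : ℝ) a)
  have e1 : (fun j i => Sum.elim (fun _ : ι => 1) (fun _ : ι => Complex.I * s) i * B a c j i) =
      B a (Complex.I * s * c) := by
    funext j i; cases i <;> simp [hB, mul_assoc]
  have e2 : (fun j i => Sum.elim (fun _ : ι => Complex.I * s) (fun _ : ι => 1) i *
      B (-c : ℝ) a j i) = B (-(Complex.I * s * c)) a := by
    funext j i; cases i <;> simp [hB, mul_assoc]
  rw [e1, e2, N a c hac, N (-c) a (by linarith), ← rpow_add_of_nonneg
    (integral_nonneg fun _ => by positivity) (by positivity) (by positivity), ← add_div,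
    one_add_one_eq_two] at k
  refine le_trans (le_of_eq ?_) (ENNReal.ofReal_le_ofReal k)
  rw [ofReal_integral_eq_lintegral_ofReal (((bE _ _).mul (bE _ _)).norm.integrable _
    ((cE _ _).mul (cE _ _)).norm.aestronglyMeasurable) (ae_of_all _ fun _ => norm_nonneg _)]
  refine Eq.trans (lintegral_congr fun x => ?_)
    (mp_jn.lintegral_comp ((cE _ _).mul (cE _ _)).norm.measurable.ennreal_ofReal)
  simp only [E, P, hS, neg_sq, sub_right_comm 1 ((Complex.I * s * c) ^ 2), sw]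
  congr 4
  funext j
  simp [add_comm]

/-- Difference quotients of the exponential. -/
noncomputable def dq (n : ℕ) (z : ι → ℂ) : ι → ℂ :=
  fun k => (((n : ℝ) + 1 : ℝ) : ℂ) * (Complex.exp (z k / ((n : ℝ) + 1 : ℝ)) - 1)

@[fun_prop] lemma continuous_dq (n : ℕ) : Continuous (dq (ι := ι) n) := by unfold dq; fun_prop

lemma tendsto_dq (z : ι → ℂ) : Tendsto (fun n => dq n z) atTop (𝓝 z) :=
  tendsto_pi_nhds.2 fun k => by
    simpa [dq] using lim_scale ((Complex.hasDerivAt_exp 0).sub_const 1) (by simp)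
      (tendsto_atTop_add_const_right _ 1 tendsto_natCast_atTop_atTop) (z k)

lemma xc_dq (n : ℕ) (k : ι) : XC fun z => dq n z k := by
  classical
  refine ⟨Bool, inferInstance, fun σ => sg σ * (((n : ℝ) + 1 : ℝ) : ℂ),
    fun σ => if σ then Pi.single k (((n : ℝ) + 1 : ℝ) : ℂ)⁻¹ else 0, funext fun z => ?_⟩
  simp [dq, sg, Pi.single_apply, div_eq_inv_mul, sub_eq_add_neg, mul_add, add_comm]

lemma eb_dq {X : Type*} {ρ : X → ℝ} (n : X → ℕ) {W : X → ι → ℂ} (k : ι) {K L : ℝ} (hK : 0 ≤ K)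
    (hL : 0 ≤ L) (h : ∀ y, ‖W y k‖ ≤ K * |ρ y| + L) : EB ρ fun y => dq (n y) (W y) k := by
  have h' : ∀ y, ‖((‖W y k‖ : ℝ) : ℂ)‖ ≤ K * |ρ y| + L := fun y => by simpa using h y
  refine ((EB.of_lin hK hL h').mul (EB.cexp hK h')).of_le fun y => ?_
  have h1 : (1 : ℝ) ≤ n y + 1 := by simp
  have h2 := Complex.norm_exp_sub_sum_le_norm_mul_exp (W y k / ((n y : ℝ) + 1 : ℝ)) 1
  rw [norm_div, Complex.norm_real, Real.norm_of_nonneg (by positivity)] at h2
  simp only [Finset.range_one, Finset.sum_singleton, pow_zero, Nat.factorial_zero, Nat.cast_one,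
    div_one, pow_one] at h2
  rw [dq, norm_mul, Complex.norm_real, Real.norm_of_nonneg (by positivity), norm_mul,
    Complex.norm_exp_ofReal, Complex.norm_real, norm_norm]
  refine (mul_le_mul_of_nonneg_left h2 (by positivity)).trans ?_
  rw [← mul_assoc, mul_div_cancel₀ _ (by positivity)]
  exact mul_le_mul_of_nonneg_left (exp_le_exp.2 (div_le_self (norm_nonneg _) h1)) (norm_nonneg _)

lemma beck_poly {p q s a c α β : ℝ} (hpq : p.HolderConjugate q) (h2 : p ≤ 2) (hs : s ^ 2 = p - 1)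
    (hac : a ^ 2 + c ^ 2 = 1) (hc : c ^ 2 * p = s ^ 2) (hα : α + β = a) (hβ : α - β = s * c)
    (F : MvPolynomial ι ℂ) :
    ∫⁻ x, ENNReal.ofReal ‖Psi α β s (fun z => eval z F) x * Psi α β s (fun z => eval z F) (sw x)‖
      ∂g2 ι ≤ ENNReal.ofReal ((∫ x, ‖eval (cv x) F‖ ^ p ∂gauss ι) ^ (2 / p)) := by
  have hp := hpq.pos
  have l0 : ∀ z, Tendsto (fun n => eval (dq n z) F) atTop (𝓝 (eval z F)) := fun z =>
    ((MvPolynomial.continuous_eval F).tendsto z).comp (tendsto_dq z)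
  have l1 : ∀ x, Tendsto (fun n => Psi α β s (fun z => eval (dq n z) F) x) atTop
      (𝓝 (Psi α β s (fun z => eval z F) x)) := fun x => by
    have b1 : EB (fun y : ℕ × (ι → ℝ) => ‖y.2‖) fun y =>
        eval (dq y.1 ((α : ℂ) • cx x + (s : ℂ) • cv y.2 + (β : ℂ) • cb x)) F :=
      EB.eval (fun k => eb_dq Prod.fst
        (W := fun y : ℕ × (ι → ℝ) => (α : ℂ) • cx x + (s : ℂ) • cv y.2 + (β : ℂ) • cb x) k
        (abs_nonneg s) (by positivity) fun y => norm_aff _ _ s y.2 k) F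
    exact EB.tendsto (gauss ι) (φ := fun n y =>
      eval (dq n ((α : ℂ) • cx x + (s : ℂ) • cv y + (β : ℂ) • cb x)) F) b1
      (fun n => by fun_prop) fun y => l0 _
  have l2 : Tendsto (fun n => ∫ x, ‖eval (dq n (cv x)) F‖ ^ p ∂gauss ι) atTop
      (𝓝 (∫ x, ‖eval (cv x) F‖ ^ p ∂gauss ι)) := by
    have b1 : EB (fun y : ℕ × (ι → ℝ) => ‖y.2‖) fun y => eval (dq y.1 (cv y.2)) F :=
      EB.eval (fun k => eb_dq Prod.fst (W := fun y : ℕ × (ι → ℝ) => cv y.2) k zero_le_one le_rfl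
        fun y => by simpa [cv] using norm_le_pi_norm y.2 k) F
    exact EB.tendsto (gauss ι) (φ := fun n y => ‖eval (dq n (cv y)) F‖ ^ p) (b1.rpow hp.le)
      (fun n => Continuous.rpow_const (by fun_prop) fun _ => Or.inr hp.le)
      fun y => (l0 _).norm.rpow_const (Or.inr hp.le)
  have m1 : ∀ n, Measurable (Psi α β s fun z => eval (dq n z) F) := fun n =>
    measurable_Psi _ _ _ (by fun_prop)
  have k := lintegral_liminf_le (μ := g2 ι) (u := atTop) fun n =>
    ((m1 n).mul ((m1 n).comp continuous_sw.measurable)).norm.ennreal_ofReal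
  refine le_trans (le_of_eq (lintegral_congr fun x => ?_)) (k.trans ?_)
  · exact (ENNReal.tendsto_ofReal ((l1 x).mul (l1 (sw x))).norm).liminf_eq.symm
  · rw [← (ENNReal.tendsto_ofReal (l2.rpow_const (Or.inr (by positivity : 0 ≤ 2 / p)))).liminf_eq]
    exact liminf_le_liminf (Eventually.of_forall fun n =>
      beck_exp hpq h2 hs hac hc hα hβ (XC.eval (xc_dq n) F))

/-- The bound on the top homogeneous part. -/
def G (p : ℝ) : Prop :=
  ∀ (ι : Type) [Fintype ι] (d : ℕ) (F : MvPolynomial ι ℂ), F.totalDegree ≤ d →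
    ∫ x, ‖eval (cx x) (top d F)‖ ^ (2 : ℝ) ∂g2 ι ≤
      (4 / p) ^ d * (∫ x, ‖eval (cv x) F‖ ^ p ∂gauss ι) ^ (2 / p)

lemma G_base {p : ℝ} (h1 : 1 < p) (h2 : p ≤ 2) : G p := by
  intro ι _ d F hF
  have hp : 0 < p := by linarith
  obtain ⟨r, hr, hr2⟩ : ∃ r, 0 < r ∧ r ^ 2 = p := ⟨√p, sqrt_pos.2 hp, sq_sqrt hp.le⟩
  obtain ⟨s, hs⟩ : ∃ s : ℝ, s ^ 2 = p - 1 := ⟨√(p - 1), sq_sqrt (by linarith)⟩
  have k1 := beck_poly (Real.HolderConjugate.conjExponent h1) h2 hs (a := 1 / r) (c := s / r)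
    (α := r / 2) (β := 1 / r - r / 2) (by field_simp; linarith) (by field_simp; rw [hr2])
    (by ring) (by field_simp; linarith) F
  have k2 := prod_avg (measurable_Psi (r / 2) (1 / r - r / 2) s (MvPolynomial.continuous_eval F))
    (d := d) (F := F) (k := r / 2) (by positivity) one_pos fun x => by
    obtain ⟨Q, hQ⟩ := intPoly (gauss ι) (fun y => hq d F (((r / 2 : ℝ) : ℂ) • cx x)
      ((s : ℂ) • cv y) (((1 / r - r / 2 : ℝ) : ℂ) • cb x)) _ (fun y => hq_deg _ _ _ _ _)
      fun z hz => by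
        simp only [hq_ne hF _ _ _ hz]
        exact (integrable_aff _ _ s F).const_mul _
    refine ⟨Q, by simp [hQ, hq_zero], fun θ => ?_⟩
    simp only [hQ, hq_ne hF _ _ _ (Complex.exp_ne_zero _), Psi, cx_rot, cb_rot]
    rw [integral_const_mul, norm_mul, norm_pow, Complex.norm_exp_ofReal_mul_I, one_pow, one_mul,
      smul_comm, smul_comm (Complex.exp _)]
  simp only [rpow_one, mul_one] at k2
  have k3 := (ENNReal.ofReal_le_ofReal_iff (rpow_nonneg
    (integral_nonneg fun _ => by positivity) _)).1 (k2.trans k1)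
  have e : (r / 2) ^ (2 * (d : ℝ)) = ((4 / p) ^ d)⁻¹ := by
    rw [rpow_mul (by positivity), rpow_natCast, rpow_two, ← inv_pow, inv_div, div_pow, hr2]
    norm_num
  rwa [e, inv_mul_le_iff₀ (by positivity)] at k3

lemma G_half {p : ℝ} (hp : 0 < p) (h : G (2 * p)) : G p := by
  intro ι _ d F hF
  have hi : Integrable (fun x => ‖eval (cv x) F‖ ^ p) (gauss ι) :=
    ((EB.eval eb_cv _).rpow hp.le).integrable _
      (Continuous.rpow_const (by fun_prop) fun _ => Or.inr hp.le).aestronglyMeasurable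
  have k1 := prod_avg (Ψ := fun x => eval (cv x.1) F) (Continuous.measurable (by fun_prop))
    (d := d) (F := F) (k := 1 / 2) (by positivity) hp fun x => by
    refine ⟨hq d F (((1 / 2 : ℝ) : ℂ) • cx x) 0 (((1 / 2 : ℝ) : ℂ) • cb x), hq_zero _ _ _ _ _,
      fun θ => ?_⟩
    rw [hq_ne hF _ _ _ (Complex.exp_ne_zero _), norm_mul, norm_pow, Complex.norm_exp_ofReal_mul_I,
      one_pow, one_mul, smul_comm, smul_comm (Complex.exp _), ← cx_rot, ← cb_rot]
    congr 3
    funext k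
    simp only [cx, cb, cv, Pi.add_apply, Pi.smul_apply, smul_eq_mul, Pi.zero_apply]
    push_cast
    ring
  simp only [sw, norm_mul, mul_rpow (norm_nonneg _) (norm_nonneg _)] at k1
  rw [← ofReal_integral_eq_lintegral_ofReal (hi.mul_prod hi) (ae_of_all _ fun _ => by positivity),
    integral_prod_mul (fun x => ‖eval (cv x) F‖ ^ p) (fun x => ‖eval (cv x) F‖ ^ p),
    ENNReal.ofReal_le_ofReal_iff (mul_self_nonneg _)] at k1
  set P : MvPolynomial (ι ⊕ ι) ℂ :=
    aeval (fun k => X (Sum.inl k) + C Complex.I * X (Sum.inr k)) (top d F) with hP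
  have hH : P.IsHomogeneous d := by
    simpa only [one_mul] using (homogeneousComponent_isHomogeneous d F).aeval
      (fun k => (X (Sum.inl k) + C Complex.I * X (Sum.inr k) : MvPolynomial (ι ⊕ ι) ℂ))
      fun k => (isHomogeneous_X ℂ _).add (isHomogeneous_C_mul_X _ _)
  have eP : ∀ V, eval V P = eval (fun k => V (.inl k) + Complex.I * V (.inr k)) (top d F) :=
    fun V => by
    rw [hP, meval_aeval]
    simp
  have k2 := h (ι ⊕ ι) d P hH.totalDegree_le
  obtain ⟨a, ha, ha2⟩ : ∃ a : ℝ, 0 < a ∧ a ^ 2 = 1 / 2 :=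
    ⟨√(1 / 2), sqrt_pos.2 (by norm_num), sq_sqrt (by norm_num)⟩
  have hM := mp_sp.comp ((mp_comb (ι := ι ⊕ ι) (a := a) (b := -a) (by linarith)).comp
    ((MeasurePreserving.id _).prod (mp_jn.comp (mp_sw.comp mp_sp))))
  have e1 := mp_integral hM (g := fun x => ‖eval (cx x) (top d F)‖ ^ (2 : ℝ))
    (Continuous.rpow_const (by fun_prop) fun _ => Or.inr zero_le_two).aestronglyMeasurable
  have e2 : ∀ x : (ι ⊕ ι → ℝ) × (ι ⊕ ι → ℝ), cx (sp (a • x.1 + (-a) • jn (sw (sp x.2)))) =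
      (a : ℂ) • fun k => cx x (.inl k) + Complex.I * cx x (.inr k) := fun x => by
    funext k
    simp only [cx, sp, jn, sw, Pi.add_apply, Pi.smul_apply, smul_eq_mul, Sum.elim_inl,
      Sum.elim_inr, Pi.neg_apply]
    push_cast
    linear_combination (-(a : ℂ) * x.2 (.inr k)) * Complex.I_mul_I
  simp only [Function.comp, Prod.map, id, e2, eval_smul_top, ← eP, norm_mul, norm_pow,
    Complex.norm_real, Real.norm_of_nonneg ha.le, rpow_two, mul_pow, integral_const_mul] at e1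
  rw [← pow_mul, mul_comm d 2, pow_mul, ha2] at e1
  rw [top, homogeneousComponent_eq_self hH,
    ← mp_integral mp_jn (g := fun x => ‖eval (cv x) P‖ ^ (2 * p))
    (Continuous.rpow_const (by fun_prop) fun _ => Or.inr (by positivity)).aestronglyMeasurable]
    at k2
  have e3 : ∀ x, eval (cv (jn x)) P = eval (cx x) (top d F) := fun x => eP _
  simp only [e3, rpow_two] at k2 ⊢
  have k3 := rpow_le_rpow (mul_nonneg (by positivity) (integral_nonneg fun _ => by positivity)) k1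
    (by positivity : 0 ≤ 1 / p)
  rw [mul_rpow (by positivity) (integral_nonneg fun _ => by positivity), ← rpow_mul (by positivity),
    ← sq, ← rpow_two, ← rpow_mul (integral_nonneg fun _ => by positivity),
    show 2 * d * p * (1 / p) = 2 * d by field_simp, rpow_mul (by positivity), rpow_natCast,
    rpow_two, mul_one_div, show (1 / 2 : ℝ) ^ 2 = 4⁻¹ by norm_num, inv_pow,
    inv_mul_le_iff₀ (by positivity)] at k3
  rw [show 2 / (2 * p) = 1 / p by field_simp] at k2
  rw [← e1]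
  refine (mul_le_mul_of_nonneg_left (k2.trans (mul_le_mul_of_nonneg_left k3 (by positivity)))
    (by positivity)).trans_eq ?_
  rw [← mul_assoc, ← mul_assoc, ← mul_pow, ← mul_pow]
  congr 2
  field_simp
  norm_num

lemma G_all {p : ℝ} (hp : 0 < p) (h2 : p ≤ 2) : G p := by
  obtain ⟨m, hm⟩ := exists_pow_lt_of_lt_one hp (by norm_num : (1 / 2 : ℝ) < 1)
  induction m generalizing p with
  | zero => exact G_base (by simpa using hm) h2
  | succ m ih =>
    rcases lt_or_ge 1 p with h | h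
    · exact G_base h h2
    · exact G_half hp (ih (by positivity) (by linarith) (by rw [pow_succ] at hm; linarith))

end Pool.Agent.P.MP_961199_an.Hom
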