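import Pool.Agent.P.MP_961199_an.Hom.Beckner

/-!
The norm of an element of a homogeneous chaos, the upper bound and the extremal example.
-/

set_option autoImplicit false
set_option linter.unusedSectionVars false

namespace Pool.Agent.P.MP_961199_an.Hom

open MeasureTheory ProbabilityTheory Real Filter Topology MvPolynomial

section Alg

variable {ι : Type} [Fintype ι]

/-- Complexification of a real polynomial. -/
noncomputable def cm (h : MvPolynomial ι ℝ) : MvPolynomial ι ℂ := map Complex.ofRealHom h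

lemma eval_cm (x : ι → ℝ) (h : MvPolynomial ι ℝ) : eval (cv x) (cm h) = ((eval x h : ℝ) : ℂ) :=
  (map_eval Complex.ofRealHom x h).symm

lemma deg_cm (h : MvPolynomial ι ℝ) : (cm h).totalDegree ≤ h.totalDegree :=
  Finset.sup_mono (support_map_subset _ _)

lemma top_cm (d : ℕ) (h : MvPolynomial ι ℝ) : top d (cm h) = cm (homogeneousComponent d h) := by
  ext α
  simp only [cm, coeff_homogeneousComponent, coeff_map]
  split_ifs <;> simp

lemma conj_cm (x : (ι → ℝ) × (ι → ℝ)) (h : MvPolynomial ι ℝ) :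
    eval (cb x) (cm h) = (starRingEnd ℂ) (eval (cx x) (cm h)) := by
  unfold cm
  induction h using MvPolynomial.induction_on with
  | C a => simp
  | add p q hp hq => simp [hp, hq]
  | mul_X p k hp => simp [hp, cx, cb, sub_eq_add_neg]

/-- The real part of a complex polynomial. -/
noncomputable def reP (P : MvPolynomial ι ℂ) : MvPolynomial ι ℝ :=
  ∑ α ∈ P.support, monomial α (P.coeff α).re

lemma eval_reP (x : ι → ℝ) (P : MvPolynomial ι ℂ) : eval x (reP P) = (eval (cv x) P).re := by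
  rw [reP, map_sum, eval_eq', Complex.re_sum]
  refine Finset.sum_congr rfl fun α _ => ?_
  rw [eval_monomial, Finsupp.prod_fintype _ _ (by simp)]
  simp only [cv]
  norm_cast
  rw [Complex.re_mul_ofReal]

lemma deg_reP (P : MvPolynomial ι ℂ) : (reP P).totalDegree ≤ P.totalDegree :=
  totalDegree_finsetSum_le fun _ hα => (totalDegree_monomial_le _ _).trans (le_totalDegree hα)

lemma low_of_top {d : ℕ} {P : MvPolynomial ι ℂ} (hd : P.totalDegree ≤ d) (h : top d P = 0) :
    P = 0 ∨ P.totalDegree < d := by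
  by_contra! hc
  obtain ⟨α, hα, e⟩ := Finset.exists_mem_eq_sup _ (support_nonempty.2 hc.1)
    fun s : ι →₀ ℕ => s.sum fun _ e => e
  have h1 := congrArg (coeff α) h
  have e' : Finsupp.degree α = d := e.symm.trans (le_antisymm hd hc.2)
  rw [coeff_homogeneousComponent, if_pos e'] at h1
  exact mem_support_iff.1 hα h1

lemma deg_shift (t : ι → ℂ) (P : MvPolynomial ι ℂ) :
    (aeval (fun k => (X k + C (t k) : MvPolynomial ι ℂ)) P).totalDegree ≤ P.totalDegree := by
  rw [aeval_def, eval₂_eq]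
  refine totalDegree_finsetSum_le fun α hα => (totalDegree_mul _ _).trans ?_
  rw [algebraMap_eq, totalDegree_C, zero_add]
  refine (totalDegree_finsetProd _ _).trans (le_trans (Finset.sum_le_sum fun k _ => ?_)
    (le_totalDegree hα))
  refine (totalDegree_pow _ _).trans (mul_le_of_le_one_right' ((totalDegree_add _ _).trans ?_))
  simp

lemma top_shift {d : ℕ} (t : ι → ℂ) {P : MvPolynomial ι ℂ} (hP : P.totalDegree ≤ d) :
    top d (aeval (fun k => (X k + C (t k) : MvPolynomial ι ℂ)) P) = top d P := by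
  refine MvPolynomial.funext fun A => ?_
  rw [← hq_zero d _ A 0 0, ← hq_zero d P A t 0]
  refine congrArg _ (Polynomial.eq_of_infinite_eval_eq _ _
    ((Set.finite_singleton (0 : ℂ)).infinite_compl.mono fun z hz => ?_))
  rw [Set.mem_ofPred_eq, hq_ne ((deg_shift t P).trans hP) _ _ _ hz, hq_ne hP _ _ _ hz, meval_aeval]
  congr 3
  funext k
  simp

lemma eb_cb (j : ι) : EB (fun x : (ι → ℝ) × (ι → ℝ) => ‖x‖) fun x => cb x j :=
  ((eb_fst j).add ((EB.const (-Complex.I)).mul (eb_snd j))).of_le fun x => by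
    simp [cb, sub_eq_add_neg]

end Alg

variable {n d : ℕ}

lemma IsChaos.orth {h : MvPolynomial (Fin n) ℝ} (hh : IsChaos d h) {P : MvPolynomial (Fin n) ℂ}
    (hd : P.totalDegree ≤ d) (h0 : top d P = 0) :
    ∫ x, eval x h * (eval (cv x) P).re ∂gauss (Fin n) = 0 := by
  rcases low_of_top hd h0 with rfl | h1
  · simp
  · simpa only [eval_reP] using hh.2 _ ((deg_reP P).trans_lt h1)

lemma IsChaos.norm_sq {h : MvPolynomial (Fin n) ℝ} (hh : IsChaos d h) :
    ∫ x, |eval x h| ^ (2 : ℝ) ∂gauss (Fin n) =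
      (1 / 2) ^ d * ∫ x, ‖eval (cx x) (top d (cm h))‖ ^ (2 : ℝ) ∂g2 (Fin n) := by
  set T := top d (cm h) with hT
  have hF := (deg_cm h).trans hh.1
  have hH : T.IsHomogeneous d := homogeneousComponent_isHomogeneous _ _
  have i1 : ∀ P : MvPolynomial (Fin n) ℂ,
      Integrable (fun x => eval x h * (eval (cv x) P).re) (gauss (Fin n)) := fun P => by
    have := (((EB.eval eb_cv (cm h)).mul (EB.eval eb_cv P)).integrable (gauss (Fin n))
      (Continuous.aestronglyMeasurable (by fun_prop))).re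
    simpa [eval_cm] using this
  have k1 : ∀ v, ∫ u, (eval (cv u) (cm h) * eval (cb (u, v)) T).re ∂gauss (Fin n) =
      ∫ x, |eval x h| ^ (2 : ℝ) ∂gauss (Fin n) := fun v => by
    set P := aeval (fun k => (X k + C (-(Complex.I * v k)) : MvPolynomial (Fin n) ℂ)) T with hP
    have h1 := hh.orth (P := P - cm h) ((totalDegree_sub _ _).trans
      (max_le ((deg_shift _ _).trans hH.totalDegree_le) hF)) (by
        rw [top, map_sub, sub_eq_zero]
        exact (top_shift _ hH.totalDegree_le).trans (homogeneousComponent_eq_self hH))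
    simp only [map_sub, Complex.sub_re, mul_sub] at h1
    rw [integral_sub (i1 _) (i1 _), sub_eq_zero] at h1
    have e : ∀ u, eval (cb (u, v)) T = eval (cv u) P := fun u => by
      rw [hP, meval_aeval]
      congr 2
      funext k
      simp [cb, cv, sub_eq_add_neg]
    simpa [eval_cm, e, sq] using h1
  have e1 : ∀ x : (Fin n → ℝ) × (Fin n → ℝ),
      (1 / 2 : ℂ) • cx x + (1 / 2 : ℂ) • cb x = cv x.1 := fun x => by
    funext k
    simp only [cx, cb, cv, Pi.add_apply, Pi.smul_apply, smul_eq_mul]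
    ring
  have i2 : Integrable (fun x => eval (cv x.1) (cm h) * eval (cb x) T) (g2 (Fin n)) :=
    ((EB.eval (V := fun x : (Fin n → ℝ) × (Fin n → ℝ) => cv x.1) eb_fst (cm h)).mul
      (EB.eval eb_cb T)).integrable _ (Continuous.aestronglyMeasurable (by fun_prop))
  have k2 := rot_top (mp_rot (ι := Fin n)) hF (A := fun x => (1 / 2 : ℂ) • cx x)
    (D := fun x => (1 / 2 : ℂ) • cb x) (H := fun x => eval (cb x) T)
    (fun θ x => by rw [cx_rot, smul_comm]) (fun θ x => by rw [cb_rot, smul_comm])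
    (fun θ x => by rw [cb_rot, eval_smul_top]) (by simpa only [e1] using i2)
  have e2 : ∀ x, eval ((1 / 2 : ℂ) • cx x) T * eval (cb x) T =
      (((1 / 2) ^ d * ‖eval (cx x) T‖ ^ (2 : ℝ) : ℝ) : ℂ) := fun x => by
    rw [eval_smul_top, ← hT, mul_assoc, hT, top_cm, conj_cm, Complex.mul_conj', rpow_two]
    push_cast
    rfl
  simp only [e1, ← hT, e2] at k2
  rw [integral_complex_ofReal, integral_const_mul] at k2
  have k3 := integral_re i2
  rw [k2, integral_prod_symm _ i2.re] at k3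
  simpa only [RCLike.re_to_complex, k1, Complex.ofReal_re, integral_const, probReal_univ,
    one_smul] using k3

lemma gNorm_two_le {f h : MvPolynomial (Fin n) ℝ} {p C : ℝ} (hC : 0 ≤ C) :
    gNorm 2 h ≤ C ^ d * gNorm p f ↔ ∫ x, |eval x h| ^ (2 : ℝ) ∂gauss (Fin n) ≤
      (C ^ 2) ^ d * (∫ x, |eval x f| ^ p ∂gauss (Fin n)) ^ (2 / p) := by
  have h1 : 0 ≤ ∫ x, |eval x h| ^ (2 : ℝ) ∂gauss (Fin n) := integral_nonneg fun _ => by positivity
  have h2 : 0 ≤ ∫ x, |eval x f| ^ p ∂gauss (Fin n) := integral_nonneg fun _ => by positivity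
  rw [gNorm, gNorm, one_div (2 : ℝ), rpow_inv_le_iff_of_pos h1 (by positivity) two_pos,
    mul_rpow (by positivity) (by positivity), ← rpow_mul h2, rpow_two (C ^ d), ← pow_mul, ← pow_mul,
    mul_comm d 2, one_div_mul_eq_div]

lemma upper {p C : ℝ} (hp : 0 < p) (h2 : p ≤ 2) (hC : √(2 / p) ≤ C)
    {h g : MvPolynomial (Fin n) ℝ} (hh : IsChaos d h) (hg : g = 0 ∨ g.totalDegree < d) :
    gNorm 2 h ≤ C ^ d * gNorm p (h + g) := by
  have hd : (h + g).totalDegree ≤ d := by
    rcases hg with rfl | hg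
    · simpa using hh.1
    · exact (totalDegree_add _ _).trans (max_le hh.1 hg.le)
  have ht : top d (cm (h + g)) = top d (cm h) := by
    rw [top_cm, top_cm, map_add]
    rcases hg with rfl | hg
    · simp
    · rw [homogeneousComponent_eq_zero _ _ hg, add_zero]
  have k := G_all hp h2 (Fin n) d (cm (h + g)) ((deg_cm _).trans hd)
  simp only [ht, eval_cm, Complex.norm_real, Real.norm_eq_abs] at k
  rw [gNorm_two_le ((sqrt_nonneg _).trans hC), hh.norm_sq]
  refine (mul_le_mul_of_nonneg_left k (by positivity)).trans ?_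
  rw [← mul_assoc, ← mul_pow]
  refine mul_le_mul_of_nonneg_right (pow_le_pow_left₀ (by positivity) ?_ d)
    (rpow_nonneg (integral_nonneg fun _ => by positivity) _)
  have := (sqrt_le_iff.1 hC).2
  calc 1 / 2 * (4 / p) = 2 / p := by ring
    _ ≤ _ := this

/-- The rotation of the plane. -/
noncomputable def rot2 (θ : ℝ) (x : Fin 2 → ℝ) : Fin 2 → ℝ :=
  ![cos θ * x 0 + sin θ * x 1, -sin θ * x 0 + cos θ * x 1]

lemma mp_rot2 (θ : ℝ) : MeasurePreserving (rot2 θ) (gauss (Fin 2)) (gauss (Fin 2)) :=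
  (measurePreserving_finTwoArrow (gaussianReal 0 1)).symm.comp
    ((mp_rot1 θ).comp (measurePreserving_finTwoArrow (gaussianReal 0 1)))

/-- The complex coordinate of the plane. -/
def W (σ : ℂ) (x : Fin 2 → ℝ) : ℂ := x 0 + σ * x 1

lemma W_rot (θ : ℝ) (x : Fin 2 → ℝ) :
    W (-Complex.I) (rot2 θ x) = Complex.exp (θ * Complex.I) * W (-Complex.I) x := by
  rw [Complex.exp_mul_I]
  simp only [W, rot2, Matrix.cons_val_zero, Matrix.cons_val_one]
  push_cast
  linear_combination (Complex.sin θ * x 1) * Complex.I_mul_I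

lemma W_rot' (θ : ℝ) (x : Fin 2 → ℝ) :
    W Complex.I (rot2 θ x) = (Complex.exp (θ * Complex.I))⁻¹ * W Complex.I x := by
  rw [← Complex.exp_neg, ← neg_mul, ← Complex.ofReal_neg, Complex.exp_mul_I]
  simp only [W, rot2, Matrix.cons_val_zero, Matrix.cons_val_one]
  push_cast
  rw [Complex.cos_neg, Complex.sin_neg]
  linear_combination (Complex.sin θ * x 1) * Complex.I_mul_I

lemma eb_W (σ c : ℂ) (d : ℕ) : EB (fun x : Fin 2 → ℝ => ‖x‖) fun x => c * W σ x ^ d := by
  exact (EB.eval eb_cv (C c * (X 0 + C σ * X 1) ^ d : MvPolynomial (Fin 2) ℂ)).of_le fun x => by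
    simp [W, cv]

@[fun_prop] lemma continuous_W (σ : ℂ) : Continuous (W σ) := by unfold W; fun_prop

lemma exists_chaos (c : ℂ) (d : ℕ) : ∃ h : MvPolynomial (Fin 2) ℝ, IsChaos d h ∧
    ∀ x, eval x h = (c * W (-Complex.I) x ^ d).re := by
  have e : ∀ x, eval x (reP (C c * (X 0 + C (-Complex.I) * X 1) ^ d : MvPolynomial (Fin 2) ℂ)) =
      (c * W (-Complex.I) x ^ d).re := fun x => by simp [eval_reP, W, cv]
  refine ⟨_, ⟨(deg_reP _).trans ?_, fun g hg => ?_⟩, e⟩
  · simpa only [one_mul] using ((((isHomogeneous_X ℂ (0 : Fin 2)).add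
      (isHomogeneous_C_mul_X (-Complex.I) 1)).pow d).C_mul c).totalDegree_le
  · have e1 : ∀ x : Fin 2 → ℝ, W Complex.I x • ![(1 / 2 : ℂ), -Complex.I / 2] +
        W (-Complex.I) x • ![(1 / 2 : ℂ), Complex.I / 2] = cv x := fun x => by
      funext k
      fin_cases k
      · simp [W, cv]; ring
      · simp [W, cv]; linear_combination (-(x 1 : ℂ)) * Complex.I_mul_I
    have i1 : Integrable (fun x => eval (cv x) (cm g) * (c * W (-Complex.I) x ^ d))
        (gauss (Fin 2)) := ((EB.eval eb_cv _).mul (eb_W _ c d)).integrable _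
      (Continuous.aestronglyMeasurable (by fun_prop))
    have k := rot_top mp_rot2 ((deg_cm g).trans hg.le)
      (A := fun x => W Complex.I x • ![(1 / 2 : ℂ), -Complex.I / 2])
      (D := fun x => W (-Complex.I) x • ![(1 / 2 : ℂ), Complex.I / 2])
      (H := fun x => c * W (-Complex.I) x ^ d) (fun θ x => by rw [W_rot', mul_smul])
      (fun θ x => by rw [W_rot, mul_smul]) (fun θ x => by rw [W_rot]; ring)
      (by simpa only [e1] using i1)
    simp only [e1, top, homogeneousComponent_eq_zero _ _ ((deg_cm g).trans_lt hg), map_zero,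
      zero_mul, integral_zero] at k
    have k2 := integral_re i1
    rw [k] at k2
    simp only [e, eval_cm, RCLike.re_to_complex, Complex.re_ofReal_mul, Complex.zero_re] at k2 ⊢
    simpa only [mul_comm] using k2

lemma norm_W_sq (x : Fin 2 → ℝ) : ‖W (-Complex.I) x‖ ^ 2 = x 0 ^ 2 + x 1 ^ 2 := by
  rw [Complex.sq_norm, Complex.normSq_apply]
  simp [W, sq]

lemma moment_low {δ : ℝ} (hδ : 0 < δ) (d : ℕ) :
    (2 * d * exp (-(1 + δ))) ^ d * ((√(2 * π))⁻¹ * exp (-(1 + 1 / δ) / 2)) ≤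
      ∫ x, ‖W (-Complex.I) x‖ ^ (2 * d) ∂gauss (Fin 2) := by
  obtain ⟨t, ht, ht2⟩ : ∃ t : ℝ, 0 ≤ t ∧ t ^ 2 = 2 * d :=
    ⟨√(2 * d), sqrt_nonneg _, sq_sqrt (by positivity)⟩
  have i1 : Integrable (fun x => ‖W (-Complex.I) x‖ ^ (2 * d)) (gauss (Fin 2)) := by
    simpa using (eb_W (-Complex.I) 1 (2 * d)).norm.integrable (gauss (Fin 2))
      (Continuous.aestronglyMeasurable (by fun_prop))
  refine le_trans ?_ (mul_meas_ge_le_integral_of_nonneg (ae_of_all _ fun _ => by positivity) i1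
    ((2 * d) ^ d))
  rw [mul_pow, mul_assoc]
  refine mul_le_mul_of_nonneg_left ?_ (by positivity)
  have k1 : (gaussianReal 0 1).real (Set.Icc t (t + 1)) ≤
      (gauss (Fin 2)).real {x | (2 * d : ℝ) ^ d ≤ ‖W (-Complex.I) x‖ ^ (2 * d)} := by
    rw [← (measurePreserving_eval (fun _ : Fin 2 => gaussianReal 0 1) 0).measureReal_preimage
      measurableSet_Icc.nullMeasurableSet]
    refine measureReal_mono (fun x hx => ?_)
    rw [Set.mem_ofPred_eq, pow_mul, norm_W_sq, ← ht2]
    refine pow_le_pow_left₀ (sq_nonneg _) ?_ d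
    have : t ≤ x 0 := hx.1
    nlinarith [sq_nonneg (x 1)]
  refine le_trans ?_ k1
  rw [measureReal_def, gaussianReal_apply_eq_integral _ one_ne_zero,
    ENNReal.toReal_ofReal (integral_nonneg fun _ => gaussianPDFReal_nonneg _ _ _)]
  refine le_trans (by simp) (setIntegral_ge_of_const_le_real (μ := volume) measurableSet_Icc
    (by simp) (c := exp (-(1 + δ)) ^ d * ((√(2 * π))⁻¹ * exp (-(1 + 1 / δ) / 2))) (fun u hu => ?_)
    (integrable_gaussianPDFReal 0 1).integrableOn)
  rw [gaussianPDFReal, ← exp_nat_mul, mul_left_comm, ← exp_add]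
  simp only [NNReal.coe_one, mul_one, sub_zero]
  refine mul_le_mul_of_nonneg_left (exp_le_exp.2 ?_) (by positivity)
  have h1 : u ^ 2 ≤ (t + 1) ^ 2 := pow_le_pow_left₀ (ht.trans hu.1) hu.2 2
  have h2 : 2 * t ≤ δ * t ^ 2 + 1 / δ := by
    rw [← sub_nonneg, show δ * t ^ 2 + 1 / δ - 2 * t = (δ * t - 1) ^ 2 / δ by field_simp; ring]
    positivity
  nlinarith

lemma moment_up {b : ℝ} (hb : 0 < b) (hb2 : b < 1 / 2) : ∃ K, 0 ≤ K ∧ ∀ m : ℝ, 0 < m →
    ∫ x, ‖W (-Complex.I) x‖ ^ (2 * m) ∂gauss (Fin 2) ≤ (m / b * exp (-1)) ^ m * K := by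
  have i0 : Integrable (fun t : ℝ => exp (b * t ^ 2)) (gaussianReal 0 1) := by
    rw [gaussianReal_of_var_ne_zero _ one_ne_zero, integrable_withDensity_iff_integrable_smul'
      (measurable_gaussianPDF _ _) (ae_of_all _ fun _ => gaussianPDF_lt_top)]
    refine ((integrable_exp_neg_mul_sq (b := 1 / 2 - b) (by linarith)).const_mul
      (√(2 * π))⁻¹).congr (ae_of_all _ fun t => ?_)
    dsimp only
    rw [toReal_gaussianPDF, gaussianPDFReal, smul_eq_mul, mul_assoc, ← exp_add]
    simp only [NNReal.coe_one, mul_one, sub_zero]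
    ring_nf
  have i1 : Integrable (fun x => exp (b * ‖W (-Complex.I) x‖ ^ 2)) (gauss (Fin 2)) := by
    simpa [norm_W_sq, mul_add, exp_add, gauss] using Integrable.fintype_prod (ι := Fin 2)
      (f := fun _ (t : ℝ) => exp (b * t ^ 2)) (μ := fun _ => gaussianReal 0 1) fun _ => i0
  refine ⟨_, integral_nonneg (μ := gauss (Fin 2))
    (f := fun x => exp (b * ‖W (-Complex.I) x‖ ^ 2)) fun _ => (exp_pos _).le, fun m hm => ?_⟩
  rw [← integral_const_mul]
  refine integral_mono_of_nonneg (ae_of_all _ fun _ => by positivity) (i1.const_mul _)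
    (ae_of_all _ fun x => ?_)
  have h1 : ‖W (-Complex.I) x‖ ^ 2 ≤ m / b * exp (-1) * exp (b * ‖W (-Complex.I) x‖ ^ 2 / m) := by
    rw [mul_assoc, ← exp_add, div_mul_eq_mul_div, le_div_iff₀ hb, ← div_le_iff₀' hm]
    rw [mul_comm _ b]
    linarith [add_one_le_exp (-1 + b * ‖W (-Complex.I) x‖ ^ 2 / m)]
  dsimp only
  rw [rpow_mul (norm_nonneg _), rpow_two]
  refine (rpow_le_rpow (sq_nonneg _) h1 hm.le).trans_eq ?_
  rw [mul_rpow (by positivity) (by positivity), ← exp_mul, div_mul_cancel₀ _ hm.ne']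

lemma lower {p C : ℝ} (hp : 0 < p) (hC : 0 < C)
    (H : ∀ (d : ℕ) (h : MvPolynomial (Fin 2) ℝ), 0 < d → IsChaos d h →
      gNorm 2 h ≤ C ^ d * gNorm p h) : √(2 / p) ≤ C := by
  rw [sqrt_le_left hC.le, div_le_iff₀ hp]
  by_contra! hc
  obtain ⟨δ, hδ, hδ0⟩ : ∃ δ : ℝ, C ^ 2 * p < 2 * exp (-δ) ^ 2 ∧ 0 < δ := by
    have h1 : Tendsto (fun δ : ℝ => 2 * exp (-δ) ^ 2) (𝓝[>] 0) (𝓝 2) := by
      exact (Continuous.tendsto' (f := fun δ : ℝ => 2 * exp (-δ) ^ 2) (by fun_prop) 0 2
        (by simp)).mono_left nhdsWithin_le_nhds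
    exact ((h1.eventually (lt_mem_nhds hc)).and self_mem_nhdsWithin).exists
  have hη : exp (-δ) < 1 := exp_lt_one_iff.2 (by linarith)
  have hη0 := exp_pos (-δ)
  obtain ⟨K, hK0, hK⟩ := moment_up (b := exp (-δ) / 2) (by positivity) (by linarith)
  set L := (√(2 * π))⁻¹ * exp (-(1 + 1 / δ) / 2) with hL
  have hL0 : 0 < L := by positivity
  have hr : 1 < 2 * exp (-δ) ^ 2 / (C ^ 2 * p) := (one_lt_div (by positivity)).2 hδ
  obtain ⟨d, hd, hd0⟩ := (((tendsto_pow_atTop_atTop_of_one_lt hr).eventually_gt_atTop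
    (2 * K ^ (2 / p) / L)).and (eventually_gt_atTop 0)).exists
  have hd1 : (0 : ℝ) < d := by exact_mod_cast hd0
  have k : ∀ c : ℂ, ‖c‖ = 1 → ∫ x, (c * W (-Complex.I) x ^ d).re ^ 2 ∂gauss (Fin 2) ≤
      (C ^ 2 * (d * p / exp (-δ) * exp (-1))) ^ d * K ^ (2 / p) := fun c hc => by
    obtain ⟨h, hh, e⟩ := exists_chaos c d
    have k1 := (gNorm_two_le hC.le).1 (H d h hd0 hh)
    simp only [e, rpow_two, sq_abs] at k1
    have k2 : ∫ x, |(c * W (-Complex.I) x ^ d).re| ^ p ∂gauss (Fin 2) ≤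
        ∫ x, ‖W (-Complex.I) x‖ ^ (2 * (d * p / 2)) ∂gauss (Fin 2) := by
      have i1 := ((eb_W (-Complex.I) 1 1).rpow (by positivity : 0 ≤ 2 * (d * p / 2))).integrable
        (gauss (Fin 2)) (Continuous.rpow_const (by fun_prop) fun _ =>
          Or.inr (by positivity)).aestronglyMeasurable
      simp only [one_mul, pow_one] at i1
      refine integral_mono_of_nonneg (ae_of_all _ fun _ => by positivity) i1
        (ae_of_all _ fun x => ?_)
      refine (rpow_le_rpow (abs_nonneg _) (Complex.abs_re_le_norm _) hp.le).trans_eq ?_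
      rw [norm_mul, hc, one_mul, norm_pow, ← rpow_natCast, ← rpow_mul (norm_nonneg _)]
      congr 1
      ring
    refine k1.trans ?_
    rw [mul_pow, mul_assoc]
    refine mul_le_mul_of_nonneg_left ((rpow_le_rpow (integral_nonneg fun _ => by positivity)
      (k2.trans (hK _ (by positivity))) (by positivity)).trans_eq ?_) (by positivity)
    rw [mul_rpow (by positivity) hK0, ← rpow_mul (by positivity),
      show d * p / 2 * (2 / p) = d by field_simp, rpow_natCast]
    congr 3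
    field_simp
  have i2 : ∀ c : ℂ, Integrable (fun x => (c * W (-Complex.I) x ^ d).re ^ 2) (gauss (Fin 2)) :=
    fun c => (((eb_W (-Complex.I) c d).mul (eb_W (-Complex.I) c d)).of_le fun x => by
      rw [norm_mul, sq, norm_mul]
      exact mul_self_le_mul_self (norm_nonneg _) (Complex.abs_re_le_norm _)).integrable _
        (Continuous.aestronglyMeasurable (by fun_prop))
  have k3 := add_le_add (k 1 (by simp)) (k (-Complex.I) (by simp))
  rw [← integral_add (i2 _) (i2 _)] at k3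
  have e : ∀ x, (1 * W (-Complex.I) x ^ d).re ^ 2 + (-Complex.I * W (-Complex.I) x ^ d).re ^ 2 =
      ‖W (-Complex.I) x‖ ^ (2 * d) := fun x => by
    rw [mul_comm 2 d, pow_mul, ← norm_pow, Complex.sq_norm, Complex.normSq_apply]
    simp [sq]
  simp only [e] at k3
  have k4 := (moment_low hδ0 d).trans k3
  rw [← hL, show 2 * d * exp (-(1 + δ)) = 2 * exp (-δ) ^ 2 / (C ^ 2 * p) *
    (C ^ 2 * (d * p / exp (-δ) * exp (-1))) by rw [neg_add, exp_add]; field_simp, mul_pow] at k4
  rw [div_lt_iff₀ hL0] at hd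
  have h0 : 0 < (C ^ 2 * (d * p / exp (-δ) * exp (-1))) ^ d := by positivity
  nlinarith

end Pool.Agent.P.MP_961199_an.Hom
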