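import Mathlib

/-!
Definitions for the comparison of moments of homogeneous Wiener chaoses.
-/

set_option autoImplicit false

namespace Pool.Agent.P.MP_961199_an.Hom

open MeasureTheory ProbabilityTheory

/-- The standard Gaussian measure on `ℝ^ι`. -/
noncomputable def gauss (ι : Type) [Fintype ι] : Measure (ι → ℝ) :=
  Measure.pi fun _ => gaussianReal 0 1

/-- The norm `‖f‖_r = (∫ |f|^r dγ_n)^(1/r)` of a real polynomial in `n` variables. -/
noncomputable def gNorm {n : ℕ} (r : ℝ) (f : MvPolynomial (Fin n) ℝ) : ℝ :=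
  (∫ x, |MvPolynomial.eval x f| ^ r ∂gauss (Fin n)) ^ (1 / r)

/-- `h` belongs to the homogeneous Wiener chaos of order `d`: it has degree at most `d` and is
orthogonal in `L^2(γ_n)` to every polynomial of degree less than `d`. -/
def IsChaos {n : ℕ} (d : ℕ) (h : MvPolynomial (Fin n) ℝ) : Prop :=
  h.totalDegree ≤ d ∧ ∀ g : MvPolynomial (Fin n) ℝ, g.totalDegree < d →
    ∫ x, MvPolynomial.eval x h * MvPolynomial.eval x g ∂gauss (Fin n) = 0

end Pool.Agent.P.MP_961199_an.Hom
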