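import Pool.Agent.P.MP_961199_an.Hom.Base

/-!
One variable polynomials attached to rotations, subharmonicity and averaging.
-/

set_option autoImplicit false
set_option linter.unusedSectionVars false

namespace Pool.Agent.P.MP_961199_an.Hom

open MeasureTheory ProbabilityTheory Real Filter Topology MvPolynomial

section Poly

variable {κ : Type*}

/-- The homogeneous part of degree `d`. -/
noncomputable abbrev top (d : ℕ) (F : MvPolynomial κ ℂ) : MvPolynomial κ ℂ :=
  homogeneousComponent d F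

lemma eval_smul_hom {H : MvPolynomial κ ℂ} {m : ℕ} (hH : H.IsHomogeneous m) (z : ℂ)
    (V : κ → ℂ) : eval (z • V) H = z ^ m * eval V H := by
  rw [eval_eq, eval_eq, Finset.mul_sum]
  refine Finset.sum_congr rfl fun α hα => ?_
  rw [hH.degree_eq_sum_deg_support hα, ← Finset.prod_pow_eq_pow_sum, mul_left_comm,
    ← Finset.prod_mul_distrib]
  simp [mul_pow]

lemma eval_smul_top (d : ℕ) (F : MvPolynomial κ ℂ) (z : ℂ) (V : κ → ℂ) :
    eval (z • V) (top d F) = z ^ d * eval V (top d F) :=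
  eval_smul_hom (homogeneousComponent_isHomogeneous d F) z V

lemma sum_top {F : MvPolynomial κ ℂ} {d : ℕ} (hF : F.totalDegree ≤ d) :
    ∑ m ∈ Finset.range (d + 1), top m F = F := by
  conv_rhs => rw [← sum_homogeneousComponent F]
  refine (Finset.sum_subset (Finset.range_mono (by omega)) fun m _ hm => ?_).symm
  exact homogeneousComponent_eq_zero _ _ (by simpa using hm)

lemma peval_aeval (g : κ → Polynomial ℂ) (z : ℂ) (H : MvPolynomial κ ℂ) :
    (aeval g H).eval z = eval (fun k => (g k).eval z) H := by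
  induction H using MvPolynomial.induction_on with
  | C a => simp
  | add p q hp hq => simp [hp, hq]
  | mul_X p k hp => simp [hp]

/-- The polynomial `z ↦ z^d F(A/z + B + D z)`. -/
noncomputable def hq (d : ℕ) (F : MvPolynomial κ ℂ) (A B D : κ → ℂ) : Polynomial ℂ :=
  ∑ m ∈ Finset.range (d + 1), Polynomial.X ^ (d - m) * aeval (fun k => Polynomial.C (A k) +
    Polynomial.C (B k) * Polynomial.X + Polynomial.C (D k) * Polynomial.X ^ 2) (top m F)

lemma hq_eval (d : ℕ) (F : MvPolynomial κ ℂ) (A B D : κ → ℂ) (z : ℂ) :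
    (hq d F A B D).eval z =
      ∑ m ∈ Finset.range (d + 1), z ^ (d - m) * eval (A + z • B + z ^ 2 • D) (top m F) := by
  rw [hq, Polynomial.eval_finsetSum]
  refine Finset.sum_congr rfl fun m _ => ?_
  rw [Polynomial.eval_mul, peval_aeval]
  congr 1
  · simp
  · congr 2
    funext k
    simp only [Polynomial.eval_add, Polynomial.eval_mul, Polynomial.eval_C, Polynomial.eval_X,
      Polynomial.eval_pow, Pi.add_apply, Pi.smul_apply, smul_eq_mul]
    ring

lemma hq_zero (d : ℕ) (F : MvPolynomial κ ℂ) (A B D : κ → ℂ) :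
    (hq d F A B D).eval 0 = eval A (top d F) := by
  rw [hq_eval, Finset.sum_range_succ, Finset.sum_eq_zero fun m hm => ?_]
  · simp
  · rw [zero_pow (by simp at hm; omega), zero_mul]

lemma hq_ne {d : ℕ} {F : MvPolynomial κ ℂ} (hF : F.totalDegree ≤ d) (A B D : κ → ℂ) {z : ℂ}
    (hz : z ≠ 0) : (hq d F A B D).eval z = z ^ d * eval (z⁻¹ • A + B + z • D) F := by
  have e : A + z • B + z ^ 2 • D = z • (z⁻¹ • A + B + z • D) := by
    funext k
    simp only [Pi.add_apply, Pi.smul_apply, smul_eq_mul]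
    field_simp
  rw [hq_eval, e]
  conv_rhs => rw [← sum_top hF, map_sum, Finset.mul_sum]
  refine Finset.sum_congr rfl fun m hm => ?_
  rw [eval_smul_top, ← mul_assoc, ← pow_add, Nat.sub_add_cancel (by simp at hm; omega)]

lemma hq_deg (d : ℕ) (F : MvPolynomial κ ℂ) (A B D : κ → ℂ) :
    (hq d F A B D).natDegree ≤ 2 * d := by
  refine Polynomial.natDegree_sum_le_of_forall_le _ _ fun m hm => ?_
  refine Polynomial.natDegree_mul_le.trans ?_
  have h := aeval_natDegree_le (n := 2) (top m F)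
    (homogeneousComponent_isHomogeneous m F).totalDegree_le
    (fun k => Polynomial.C (A k) + Polynomial.C (B k) * Polynomial.X +
      Polynomial.C (D k) * Polynomial.X ^ 2) (fun k => by compute_degree!)
  rw [Polynomial.natDegree_X_pow]
  simp at hm
  omega

lemma intPoly {Y : Type*} [MeasurableSpace Y] (μ : Measure Y) (q : Y → Polynomial ℂ) (M : ℕ)
    (hd : ∀ y, (q y).natDegree ≤ M) (hi : ∀ z ≠ 0, Integrable (fun y => (q y).eval z) μ) :
    ∃ Q : Polynomial ℂ, ∀ z, Q.eval z = ∫ y, (q y).eval z ∂μ := by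
  have hv : Set.InjOn (fun i : ℕ => (i : ℂ) + 1) (Finset.range (M + 1)) := fun i _ j _ h => by
    simpa using h
  refine ⟨Lagrange.interpolate (Finset.range (M + 1)) (fun i : ℕ => (i : ℂ) + 1)
    fun i => ∫ y, (q y).eval ((i : ℂ) + 1) ∂μ, fun z => ?_⟩
  have e : ∀ y, (q y).eval z = ∑ i ∈ Finset.range (M + 1), (q y).eval ((i : ℂ) + 1) *
      (Lagrange.basis (Finset.range (M + 1)) (fun i : ℕ => (i : ℂ) + 1) i).eval z := fun y => by
    have hlt : (q y).degree < (Finset.range (M + 1)).card := by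
      rw [Finset.card_range]
      exact Polynomial.degree_le_natDegree.trans_lt (by exact_mod_cast Nat.lt_succ_of_le (hd y))
    conv_lhs => rw [Lagrange.eq_interpolate hv hlt]
    simp [Lagrange.interpolate_apply, Polynomial.eval_finsetSum]
  simp_rw [e]
  rw [integral_finsetSum _ fun i _ => (hi _ (Nat.cast_add_one_ne_zero i)).mul_const _]
  simp [Lagrange.interpolate_apply, Polynomial.eval_finsetSum, integral_mul_const]

open Set in
lemma sub_avg (Q : Polynomial ℂ) {r : ℝ} (hr : 0 < r) :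
    ‖Q.eval 0‖ ^ r ≤ ⨍ θ in (0 : ℝ)..(2 * π), ‖Q.eval (circleMap 0 1 θ)‖ ^ r := by
  have : IsFiniteMeasure (volume.restrict (uIoc 0 (2 * π))) := by
    rw [uIoc_of_le (by positivity)]; infer_instance
  have : NeZero (volume (uIoc 0 (2 * π))) := ⟨by simp⟩
  by_cases! hp : Q = 0
  · simp [hp, hr.ne']
  have h0 : ∀ᵐ (θ : ℝ) ∂volume.restrict (uIoc 0 (2 * π)), 0 < ‖Q.eval (circleMap 0 1 θ)‖ := by
    rw [ae_restrict_iff' measurableSet_uIoc]
    refine Set.Finite.measure_zero ?_ _
    simp only [norm_pos_iff, ne_eq, compl_ofPred, Classical.not_imp, Decidable.not_not]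
    refine Finite.of_finite_image (f := circleMap 0 1) (Q.roots.finite_toSet.subset ?_) ?_
    · rintro z ⟨θ, ⟨_, heval⟩, rfl⟩
      exact (Polynomial.mem_roots hp).mpr heval
    · grw [ofPred_and, inter_subset_left]
      exact injOn_circleMap_of_abs_sub_le one_ne_zero (by simp [abs_of_pos pi_pos])
  have hae : ∀ᵐ (θ : ℝ) ∂volume.restrict (uIoc 0 (2 * π)),
      exp (log ‖Q.eval (circleMap 0 1 θ)‖ * r) = ‖Q.eval (circleMap 0 1 θ)‖ ^ r := by
    filter_upwards [h0] with θ hθ
    exact (rpow_def_of_pos hθ r).symm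
  have hcont : Continuous fun x : ℝ => ‖Q.eval (circleMap 0 1 x)‖ ^ r :=
    Continuous.rpow_const (by fun_prop) fun _ => Or.inr hr.le
  have h1 : ‖Q.eval 0‖ ≤ Q.mahlerMeasure := by
    simpa [Polynomial.coeff_zero_eq_eval_zero] using Q.norm_coeff_le_choose_mul_mahlerMeasure 0
  refine (rpow_le_rpow (norm_nonneg _) h1 hr.le).trans ?_
  simp only [Polynomial.mahlerMeasure, Polynomial.logMahlerMeasure, ne_eq, hp, not_false_eq_true,
    ↓reduceIte]
  rw [circleAverage_eq_intervalAverage, ← exp_mul]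
  calc exp ((⨍ (θ : ℝ) in 0..(2 * π), log ‖Q.eval (circleMap 0 1 θ)‖) * r)
      = exp (⨍ (θ : ℝ) in 0..(2 * π), log ‖Q.eval (circleMap 0 1 θ)‖ * r) := by
        simp only [average_eq, integral_mul_const, smul_eq_mul, mul_assoc]
    _ ≤ ⨍ (θ : ℝ) in 0..(2 * π), exp (log ‖Q.eval (circleMap 0 1 θ)‖ * r) := by
        refine convexOn_exp.map_average_le continuousOn_exp isClosed_univ (by simp) ?_ ?_
        · rw [Set.uIoc_of_le (by positivity : 0 ≤ 2 * π)]
          exact Q.intervalIntegrable_mahlerMeasure.1.mul_const r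
        · exact (integrable_congr hae).mpr hcont.integrableOn_uIoc
    _ = _ := average_congr hae

lemma sum_roots (Q : Polynomial ℂ) {M : ℕ} (hM : Q.natDegree < M) :
    ∑ k ∈ Finset.range M, Q.eval (Complex.exp (2 * π * Complex.I / M) ^ k) = M * Q.eval 0 := by
  have hζ := Complex.isPrimitiveRoot_exp M (by omega)
  set ζ := Complex.exp (2 * π * Complex.I / M)
  simp_rw [Polynomial.eval_eq_sum_range' hM]
  rw [Finset.sum_comm, Finset.mul_sum]
  refine Finset.sum_congr rfl fun j hj => ?_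
  rcases Nat.eq_zero_or_pos j with rfl | h0
  · simp
  · have h1 : ζ ^ j - 1 ≠ 0 :=
      sub_ne_zero.2 (hζ.pow_ne_one_of_pos_of_lt h0.ne' (Finset.mem_range.1 hj))
    have h2 := mul_geom_sum (ζ ^ j) M
    rw [← pow_mul, mul_comm j M, pow_mul, hζ.pow_eq_one, one_pow, sub_self, mul_eq_zero] at h2
    simp_rw [← pow_mul, mul_comm _ j, pow_mul]
    rw [← Finset.mul_sum, h2.resolve_left h1, zero_pow h0.ne']
    simp

/-- Averaging over a measure preserving circle action extracts the top homogeneous part. -/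
lemma rot_top {X : Type*} [MeasurableSpace X] {μ : Measure X} {ρ : ℝ → X → X}
    (hρ : ∀ θ, MeasurePreserving (ρ θ) μ μ) {d : ℕ} {F : MvPolynomial κ ℂ}
    (hF : F.totalDegree ≤ d) {A D : X → κ → ℂ} {H : X → ℂ}
    (hA : ∀ θ x, A (ρ θ x) = (Complex.exp (θ * Complex.I))⁻¹ • A x)
    (hD : ∀ θ x, D (ρ θ x) = Complex.exp (θ * Complex.I) • D x)
    (hH : ∀ θ x, H (ρ θ x) = Complex.exp (θ * Complex.I) ^ d * H x)
    (hi : Integrable (fun x => eval (A x + D x) F * H x) μ) :
    ∫ x, eval (A x + D x) F * H x ∂μ = ∫ x, eval (A x) (top d F) * H x ∂μ := by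
  obtain ⟨M, hM⟩ : ∃ M, 2 * d < M := ⟨_, Nat.lt_succ_self _⟩
  have hM0 : (M : ℂ) ≠ 0 := Nat.cast_ne_zero.2 (by omega)
  have hθ : ∀ k : ℕ, Complex.exp ((2 * π * k / M : ℝ) * Complex.I) =
      Complex.exp (2 * π * Complex.I / M) ^ k := fun k => by
    rw [← Complex.exp_nat_mul]; congr 1; push_cast; ring
  have e : ∀ x, ∑ k ∈ Finset.range M, eval (A (ρ (2 * π * k / M) x) + D (ρ (2 * π * k / M) x)) F *
      H (ρ (2 * π * k / M) x) = M * (eval (A x) (top d F) * H x) := fun x => by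
    rw [← hq_zero d F (A x) 0 (D x), ← mul_assoc,
      ← sum_roots _ ((hq_deg d F (A x) 0 (D x)).trans_lt hM), Finset.sum_mul]
    refine Finset.sum_congr rfl fun k _ => ?_
    rw [← hθ, hq_ne hF _ _ _ (Complex.exp_ne_zero _), hA, hD, hH, add_zero]
    ring
  have h1 : ∀ θ, ∫ x, eval (A (ρ θ x) + D (ρ θ x)) F * H (ρ θ x) ∂μ =
      ∫ x, eval (A x + D x) F * H x ∂μ := fun θ => by
    conv_rhs => rw [← (hρ θ).map_eq]
    rw [integral_map (hρ θ).measurable.aemeasurable (by rw [(hρ θ).map_eq]; exact hi.1)]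
  refine mul_left_cancel₀ hM0 ?_
  rw [← integral_const_mul (M : ℂ) fun x => eval (A x) (top d F) * H x]
  simp_rw [← e]
  rw [integral_finsetSum _ fun k _ => by exact (hρ _).integrable_comp_of_integrable hi]
  simp [h1]

end Poly

variable {ι : Type} [Fintype ι]

/-- Subharmonic averaging over rotations. -/
lemma avg_rot {T Ψ : (ι → ℝ) × (ι → ℝ) → ℝ} (hΨ : Measurable Ψ) {r : ℝ} (hr : 0 < r)
    (h : ∀ x, ∃ Q : Polynomial ℂ, ‖Q.eval 0‖ = T x ∧
      ∀ θ : ℝ, ‖Q.eval (Complex.exp (θ * Complex.I))‖ = Ψ (rot θ x)) :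
    ∫⁻ x, ENNReal.ofReal (T x ^ r) ∂g2 ι ≤ ∫⁻ x, ENNReal.ofReal (Ψ x ^ r) ∂g2 ι := by
  have hπ : 0 < 2 * π := by positivity
  have hm : Measurable fun x => ENNReal.ofReal (Ψ x ^ r) := by fun_prop
  have h1 : ∀ x, ENNReal.ofReal (2 * π) * ENNReal.ofReal (T x ^ r) ≤
      ∫⁻ θ in Set.Ioc 0 (2 * π), ENNReal.ofReal (Ψ (rot θ x) ^ r) := fun x => by
    obtain ⟨Q, h0, h2⟩ := h x
    have h3 := sub_avg Q hr
    have hc : Continuous fun θ : ℝ => ‖Q.eval (Complex.exp (θ * Complex.I))‖ ^ r :=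
      Continuous.rpow_const (by fun_prop) fun _ => Or.inr hr.le
    simp_rw [← h2]
    rw [← ofReal_integral_eq_lintegral_ofReal hc.integrableOn_Ioc
      (ae_of_all _ fun θ => by positivity), ← ENNReal.ofReal_mul hπ.le, ← h0]
    refine ENNReal.ofReal_le_ofReal ?_
    rw [interval_average_eq, intervalIntegral.integral_of_le hπ.le, sub_zero, smul_eq_mul,
      inv_mul_eq_div, le_div_iff₀' hπ] at h3
    simpa [circleMap] using h3
  have h2 : ENNReal.ofReal (2 * π) * ∫⁻ x, ENNReal.ofReal (T x ^ r) ∂g2 ι ≤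
      ENNReal.ofReal (2 * π) * ∫⁻ x, ENNReal.ofReal (Ψ x ^ r) ∂g2 ι := by
    rw [← lintegral_const_mul' _ _ ENNReal.ofReal_ne_top]
    refine (lintegral_mono h1).trans_eq ?_
    rw [lintegral_lintegral_swap (by exact (hm.comp continuous_rot.measurable).aemeasurable)]
    simp_rw [fun θ => (mp_rot (ι := ι) θ).lintegral_comp hm]
    simp [mul_comm]
  exact (ENNReal.mul_le_mul_iff_right (by simpa using pi_pos) ENNReal.ofReal_ne_top).1 h2

end Pool.Agent.P.MP_961199_an.Hom
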